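import Pool.Agent.Lib.MP_361a6f_ag.FL.O.IntS52

/-!
# The growth gap: the rows

`T` is a family of complex spaces of tensors which contains the complex combinations of the
members and is closed under products and under contractions with them.
-/

open Filter Topology MeasureTheory Module

set_option autoImplicit false

namespace Pool.Agent.Lib.MP_361a6f_ag.FL

namespace GG

open OL

/-- One compact group for all levels: the tensors of length `L` fixed by it have the dimension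
`rkA L`, and there are limits `Z L` of the spaces `T L`, which contain them and are closed under
products and contractions. -/
structure LS {I Λ β : Type} [Fintype I] [DecidableEq I] [DecidableEq Λ] [Fintype β]
    (D : Dat I Λ) (At : (L : ℕ) → Ten I L → Prop) (T : (L : ℕ) → Submodule ℂ (Ten I L))
    {lb : β → ℕ} {b : Tup I lb} (H : HMb D b) (a1 : Alg1)
    (Z : (L : ℕ) → Submodule ℂ (Ten I L)) : Prop where
  fr : ∀ L, finrank ℂ (Z L) = finrank ℂ (T L)
  rk : ∀ L, finrank ℂ (fixS H a1 L) = rkA D At L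
  le : ∀ L, fixS H a1 L ≤ Z L
  ho : ∀ p q, ∀ u ∈ Z p, ∀ v ∈ Z q, outer u v ∈ Z (p + q)
  hct : ∀ p c, ∀ u ∈ Z p, ∀ v ∈ fixS H a1 (p + c), cont D u v ∈ Z c

/-- Row LIM: there is such a group. -/
def LimStatement : Prop :=
  ∀ (a1 : Alg1) (_ : Alg2) (_ : AlgB) (_ : CptbStatement) (_ : MinbStatement)
    (_ : L1bStatement) (_ : L2bStatement) {I Λ : Type} [Fintype I] [DecidableEq I]
    [DecidableEq Λ] {D : Dat I Λ} {At : (L : ℕ) → Ten I L → Prop} (_ : ASys D At)
    {T : (L : ℕ) → Submodule ℂ (Ten I L)} (_ : ∀ L, CA At L ≤ T L)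
    (_ : ∀ p q, ∀ u ∈ T p, ∀ v ∈ T q, outer u v ∈ T (p + q))
    (_ : ∀ p c, ∀ u ∈ T p, ∀ v ∈ CA At (p + c), cont D u v ∈ T c),
    ∃ (β : Type) (_ : Fintype β) (lb : β → ℕ) (b : Tup I lb) (H : HMb D b)
      (Z : (L : ℕ) → Submodule ℂ (Ten I L)), LS D At T H a1 Z

/-- Row GRO: the growth gap for such a group. -/
def GroStatement : Prop :=
  ∀ (a1 : Alg1) (_ : Alg2) {I Λ β : Type} [Fintype I] [DecidableEq I] [DecidableEq Λ]
    [Fintype β] {D : Dat I Λ} {At : (L : ℕ) → Ten I L → Prop}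
    {T : (L : ℕ) → Submodule ℂ (Ten I L)} {lb : β → ℕ} {b : Tup I lb} (H : HMb D b)
    {Z : (L : ℕ) → Submodule ℂ (Ten I L)} (_ : LS D At T H a1 Z) (_ : ∀ L, 0 < rkA D At L)
    (d : ℕ) (_ : 0 < d) (_ : Fintype.card I = d),
    (∃ r : ℕ, 0 < r ∧ ∀ n : ℕ, Real.sqrt n * (rkA D At n : ℝ) ≤
      160 * r * (d : ℝ) ^ 3 * (finrank ℂ (T n) : ℝ)) ∨
    ∃ p : ℕ, ∀ r : ℕ, Even r → finrank ℂ (T r) ≤ p * rkA D At r

end GG

end Pool.Agent.Lib.MP_361a6f_ag.FL
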