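import Pool.Agent.Lib.MP_361a6f_ag.FL.GG.Defs

/-!
# The growth gap: the row EXP
-/

open Filter Topology MeasureTheory Module

set_option autoImplicit false

namespace Pool.Agent.Lib.MP_361a6f_ag.FL

namespace GG

open OL

/-- Row EXP: the growth gap with an exponentially small error for such a group. -/
def ExpStatement : Prop :=
  ∀ (a1 : Alg1) (_ : Alg2) {I Λ β : Type} [Fintype I] [DecidableEq I] [DecidableEq Λ]
    [Fintype β] {D : Dat I Λ} {At : (L : ℕ) → Ten I L → Prop}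
    {T : (L : ℕ) → Submodule ℂ (Ten I L)} {lb : β → ℕ} {b : Tup I lb} (H : HMb D b)
    {Z : (L : ℕ) → Submodule ℂ (Ten I L)} (_ : LS D At T H a1 Z) (_ : ∀ L, 0 < rkA D At L)
    (d : ℕ) (_ : 0 < d) (_ : Fintype.card I = d),
    (∃ r : ℕ, 0 < r ∧ ∀ n : ℕ, Real.sqrt n * (rkA D At n : ℝ) ≤
      160 * r * (d : ℝ) ^ 3 * (finrank ℂ (T n) : ℝ)) ∨
    ∃ (p : ℕ) (C c : ℝ), 0 ≤ c ∧ c < 1 ∧
      (∀ n : ℕ, |(finrank ℂ (T n) : ℝ) - p * rkA D At n| ≤ C * c ^ n * rkA D At n) ∧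
      ∀ r : ℕ, Even r → finrank ℂ (T r) ≤ p * rkA D At r

end GG

end Pool.Agent.Lib.MP_361a6f_ag.FL
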