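import Pool.Agent.Lib.MP_361a6f_ag.FL.GG.Defs
import Pool.Agent.Lib.MP_361a6f_ag.FL.NoeT

/-!
# The growth gap: the row GRO
-/

open Filter Topology MeasureTheory Module

set_option autoImplicit false
set_option linter.unusedSectionVars false
set_option linter.unusedVariables false
set_option maxHeartbeats 400000

namespace Pool.Agent.Lib.MP_361a6f_ag.FL

namespace GG

open OL Int52

section gro

variable {I Λ β : Type} [Fintype I] [DecidableEq I] [DecidableEq Λ] [Fintype β]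
  {lb : β → ℕ} {D : Dat I Λ} {b : Tup I lb} (H : HMb D b) (a1 : Alg1)

/-- the stabiliser of a tensor -/
def St {r : ℕ} (c : Ten I r) : Subgroup H.K where
  carrier := {x | gT (H.mat x) c = c}
  mul_mem' {x y} hx hy := by
    change gT (H.mat (x * y)) c = c
    rw [map_mul, a1.gT_mul]
    change gT (H.mat x) (gT (H.mat y) c) = c
    rw [show gT (H.mat y) c = c from hy]
    exact hx
  one_mem' := by
    change gT (H.mat 1) c = c
    rw [map_one, a1.gT_one]
  inv_mem' {x} hx := by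
    change gT (H.mat x⁻¹) c = c
    have h1 : gT (H.mat x⁻¹) (gT (H.mat x) c) = c := by
      rw [← a1.gT_mul, ← map_mul, inv_mul_cancel, map_one, a1.gT_one]
    rwa [show gT (H.mat x) c = c from hx] at h1

theorem mem_St {r : ℕ} {c : Ten I r} {x : H.K} : x ∈ St H a1 c ↔ gT (H.mat x) c = c := Iff.rfl

include a1 in
theorem eq_of_hT {r : ℕ} {x : H.K} {c : Ten I r} (h : hT (gT (H.mat x) c) c = hT c c) :
    gT (H.mat x) c = c := by
  have h1 : ORng.toE I r (gT (H.mat x) c) = ORng.toE I r c := by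
    rw [ORng.hT_E, ORng.hT_E] at h
    have h2 : ‖ORng.toE I r (gT (H.mat x) c)‖ = ‖ORng.toE I r c‖ :=
      ORng.norm_toE a1 (H.mem x).1 c
    have h3 := norm_sub_sq (𝕜 := ℂ) (ORng.toE I r c) (ORng.toE I r (gT (H.mat x) c))
    rw [h, inner_self_eq_norm_sq, h2] at h3
    have h4 : ‖ORng.toE I r c - ORng.toE I r (gT (H.mat x) c)‖ ^ 2 = 0 := by
      rw [h3]
      ring
    exact (sub_eq_zero.1 (norm_eq_zero.1 (pow_eq_zero_iff (two_ne_zero)|>.1 h4))).symm
  exact (ORng.toE I r).injective h1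

theorem isOpen_St {r : ℕ} (c : Ten I r)
    (hfin : (Set.range fun x : H.K => hT (gT (H.mat x) c) c).Finite) :
    IsOpen (St H a1 c : Set H.K) := by
  classical
  have huc : Continuous fun x : H.K => hT (gT (H.mat x) c) c := by
    have h1 : Continuous fun x : H.K => gT (H.mat x) c := AvbRow.cont_gT_k a1 H c
    unfold hT
    exact continuous_finsetSum _ fun w _ => ((continuous_apply w).comp h1).mul continuous_const
  have h1 : (St H a1 c : Set H.K) = ((fun x : H.K => hT (gT (H.mat x) c) c) ⁻¹'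
      (hfin.toFinset.erase (hT c c) : Set ℂ))ᶜ := by
    ext x
    have h2 : hT (gT (H.mat x) c) c ∈ hfin.toFinset := hfin.mem_toFinset.2 ⟨x, rfl⟩
    rw [SetLike.mem_coe, mem_St]
    simp only [Set.mem_compl_iff, Set.mem_preimage, Finset.mem_coe, Finset.mem_erase, not_and, h2,
      not_true_eq_false, imp_false, not_not]
    exact ⟨fun h => by rw [h], eq_of_hT H a1⟩
  rw [h1]
  exact ((hfin.toFinset.erase (hT c c)).finite_toSet.isClosed.preimage huc).isOpen_compl

/-- an upper bound in even lengths -/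
theorem even_bound (S : Subgroup H.K) [Finite (H.K ⧸ S)] {r : ℕ} (hr : Even r)
    (Y : Submodule ℂ (Ten I r)) (hS : ∀ x ∈ S, ∀ v ∈ Y, gT (H.mat x) v = v) :
    finrank ℂ Y ≤ Nat.card (H.K ⧸ S) * finrank ℂ (fixS H a1 r) := by
  classical
  have := Fintype.ofFinite (H.K ⧸ S)
  let bs := finBasis ℂ Y
  let c : Fin (finrank ℂ Y) → Ten I r := fun i => (bs i : Ten I r)
  have hli : LinearIndependent ℂ c := bs.linearIndependent.map' Y.subtype Y.ker_subtype
  obtain ⟨e', heM, heon, heex⟩ := onb (gen H c)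
  have hFr : Fr H e' := ⟨heon, fun x l => heex _ (gen_stable H a1 _ x _ (heM l))⟩
  have hcm : c ∈ gen H c := by
    refine Submodule.subset_span ⟨1, ?_⟩
    funext i
    change gT (H.mat 1) (c i) = c i
    rw [map_one, a1.gT_one]
  have h1 := le_WW H a1 e' hFr (heex c hcm) hli
  have h2 := WW_even H a1 e' hFr hr
  refine (h1.trans h2).trans (Nat.mul_le_mul_right _ ?_)
  have h3 : gen H c ≤ Submodule.span ℂ (Set.range fun q : H.K ⧸ S => gg (H.mat q.out) c) := by
    refine Submodule.span_mono ?_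
    rintro _ ⟨x, rfl⟩
    refine ⟨(x : H.K ⧸ S), ?_⟩
    obtain ⟨s, hs⟩ := QuotientGroup.mk_out_eq_mul S x
    funext i
    change gT (H.mat (x : H.K ⧸ S).out) (c i) = gT (H.mat x) (c i)
    rw [hs, map_mul, a1.gT_mul]
    congr 1
    exact hS _ s.2 _ (bs i).2
  have h4 := Submodule.finrank_mono h3
  rw [Nat.card_eq_fintype_card]
  exact h4.trans (finrank_range_le_card _)

/-- the constant in length zero -/
theorem gT_zero_len (x : Matrix I I ℂ) (c : Ten I 0) : gT x c = c := by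
  funext w
  unfold gT
  rw [Fintype.sum_unique]
  simp only [Finset.univ_eq_empty, Finset.prod_empty, one_mul]
  congr 1
  exact Subsingleton.elim _ _

end gro

section main

variable {I Λ β : Type} [Fintype I] [DecidableEq I] [DecidableEq Λ] [Fintype β]
  {lb : β → ℕ} {D : Dat I Λ} {b : Tup I lb} {H : HMb D b} {a1 : Alg1}
  {At : (L : ℕ) → Ten I L → Prop} {T Z : (L : ℕ) → Submodule ℂ (Ten I L)}

/-- the layers of a tensor with infinitely many values -/
theorem layers (hZ : LS D At T H a1 Z) (a2 : Alg2) (hrk : ∀ L, 0 < rkA D At L) (d : ℕ)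
    (hd : 0 < d) (hI : Fintype.card I = d) {r : ℕ} {c : Ten I r} (hc : c ∈ Z r)
    (hinf : ¬ (Set.range fun x : H.K => hT (gT (H.mat x) c) c).Finite) (k n : ℕ)
    (hn : (20 * d ^ 3) ^ 2 ≤ n) (hk : 0 ≤ 1 - 40 * (r * k : ℕ) * (d : ℝ) ^ 3 / Real.sqrt n) :
    ((k : ℝ) + 1) * ((1 - 40 * (r * k : ℕ) * (d : ℝ) ^ 3 / Real.sqrt n) *
      (rkA D At n : ℝ)) ≤ (finrank ℂ (T n) : ℝ) := by
  obtain ⟨v, hvf, hv1⟩ := unit_fix H a1 (L := 1) (by rw [hZ.rk]; exact hrk 1)
  have hv0 : v ≠ 0 := by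
    rintro rfl
    unfold hT at hv1
    simp at hv1
  obtain ⟨q, hqf, hq1⟩ := unit_fix H a1 (L := r) (by rw [hZ.rk]; exact hrk r)
  have h1Z : (fun _ => (1 : ℂ)) ∈ Z 0 := hZ.le 0 fun x => gT_zero_len _ _
  obtain ⟨S, hS, hcS⟩ := Set.Infinite.exists_subset_card_eq hinf (k + 1)
  obtain ⟨xs, hxs⟩ := exists_values H hcS hS
  obtain ⟨e', heM, heon, heex⟩ := onb (gen H (pad c q k))
  have hFr : Fr H e' := ⟨heon, fun x l => heex _ (gen_stable H a1 _ x _ (heM l))⟩
  have hMk := le_gen H a2 c q hqf hq1 k xs hxs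
  have hpad : ∀ j : Fin (k + 1), pad c q k j ∈ Z (r * k) := by
    intro j
    refine mx_mem h1Z hZ.ho (fun l => ?_) k
    by_cases hl : l < (j : ℕ)
    · simp only [if_pos hl]
      exact hc
    · simp only [if_neg hl]
      exact hZ.le r hqf
  have h1 := WW_le H a1 e' a2 hFr (c := pad c q k) heM (n := n) (Z n) fun j φ₀ hφ₀ =>
    hZ.hct (r * k) n _ (hpad j) φ₀ hφ₀
  have h2 := WW_low H a1 e' d hd hI hv0 hvf hFr n hn
  rw [hZ.rk n] at h2
  rw [hZ.fr n] at h1
  have h3 : ((k : ℝ) + 1) ≤ (finrank ℂ (gen H (pad c q k)) : ℝ) := by exact_mod_cast hMk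
  have h4 : 0 ≤ (1 - 40 * (r * k : ℕ) * (d : ℝ) ^ 3 / Real.sqrt n) * (rkA D At n : ℝ) :=
    mul_nonneg hk (Nat.cast_nonneg _)
  refine (mul_le_mul_of_nonneg_right h3 h4).trans (h2.trans ?_)
  exact_mod_cast h1

theorem root_law (hZ : LS D At T H a1 Z) (a2 : Alg2) (hrk : ∀ L, 0 < rkA D At L) (d : ℕ)
    (hd : 0 < d) (hI : Fintype.card I = d) {r : ℕ} (hr0 : 0 < r) {c : Ten I r} (hc : c ∈ Z r)
    (hinf : ¬ (Set.range fun x : H.K => hT (gT (H.mat x) c) c).Finite) (n : ℕ) :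
    Real.sqrt n * (rkA D At n : ℝ) ≤ 160 * r * (d : ℝ) ^ 3 * (finrank ℂ (T n) : ℝ) := by
  have hdR : (1 : ℝ) ≤ d := by exact_mod_cast hd
  have hd3 : (1 : ℝ) ≤ (d : ℝ) ^ 3 := one_le_pow₀ hdR
  have hrR : (1 : ℝ) ≤ r := by exact_mod_cast hr0
  have hN0 : (0 : ℝ) ≤ rkA D At n := Nat.cast_nonneg _
  have hTR : (rkA D At n : ℝ) ≤ finrank ℂ (T n) := by
    have h1 := Submodule.finrank_mono (hZ.le n)
    rw [hZ.rk, hZ.fr] at h1
    exact_mod_cast h1
  rcases le_or_gt ((20 * d ^ 3) ^ 2) n with hn | hn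
  swap
  · have h1 : Real.sqrt n ≤ 20 * (d : ℝ) ^ 3 := by
      rw [Real.sqrt_le_left (by positivity)]
      exact_mod_cast hn.le
    have h2 : Real.sqrt n ≤ 160 * r * (d : ℝ) ^ 3 := by nlinarith
    exact mul_le_mul h2 hTR hN0 (by positivity)
  have hn0 : 0 < n := lt_of_lt_of_le (by positivity) hn
  have hs : 0 < Real.sqrt n := Real.sqrt_pos.2 (by exact_mod_cast hn0)
  set A : ℝ := 80 * r * (d : ℝ) ^ 3 with hA
  have hA0 : 0 < A := by positivity
  set k : ℕ := ⌊Real.sqrt n / A⌋₊ with hk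
  have hk1 : (k : ℝ) ≤ Real.sqrt n / A := Nat.floor_le (by positivity)
  have hk2 : Real.sqrt n / A < k + 1 := Nat.lt_floor_add_one _
  have hk3 : 40 * (r * k : ℕ) * (d : ℝ) ^ 3 / Real.sqrt n ≤ 1 / 2 := by
    rw [div_le_iff₀ hs]
    rw [le_div_iff₀ hA0] at hk1
    push_cast
    rw [hA] at hk1
    nlinarith
  have h1 := layers hZ a2 hrk d hd hI hc hinf k n hn (by linarith)
  rw [div_lt_iff₀ hA0] at hk2
  have h2 : ((k : ℝ) + 1) * (1 / 2 * (rkA D At n : ℝ)) ≤ finrank ℂ (T n) := by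
    refine le_trans ?_ h1
    refine mul_le_mul_of_nonneg_left ?_ (by positivity)
    exact mul_le_mul_of_nonneg_right (by linarith) hN0
  have h3 : Real.sqrt n * (rkA D At n : ℝ) ≤ ((k : ℝ) + 1) * A * (rkA D At n : ℝ) :=
    mul_le_mul_of_nonneg_right hk2.le hN0
  calc Real.sqrt n * (rkA D At n : ℝ) ≤ ((k : ℝ) + 1) * A * (rkA D At n : ℝ) := h3
    _ = 2 * A * (((k : ℝ) + 1) * (1 / 2 * (rkA D At n : ℝ))) := by ring
    _ ≤ 2 * A * finrank ℂ (T n) := mul_le_mul_of_nonneg_left h2 (by positivity)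
    _ = 160 * r * (d : ℝ) ^ 3 * (finrank ℂ (T n) : ℝ) := by rw [hA]; ring

end main

/-- **The growth gap** for one compact group. -/
theorem gro : GroStatement := by
  intro a1 a2 I Λ β _ _ _ _ D At T lb b H Z hZ hrk d hd hI
  classical
  by_cases hfin : ∀ r, ∀ c ∈ Z r, (Set.range fun x : H.K => hT (gT (H.mat x) c) c).Finite
  · right
    obtain ⟨ι, _, len, t, ht, hfix⟩ := noeT fun L => (Z L : Set (Ten I L))
    let S : Subgroup H.K := ⨅ i, St H a1 (t i)
    have hS : IsOpen (S : Set H.K) := by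
      rw [Subgroup.coe_iInf]
      exact isOpen_iInter_of_finite fun i => isOpen_St H a1 (t i) (hfin _ _ (ht i))
    have : Finite (H.K ⧸ S) := Subgroup.quotient_finite_of_isOpen S hS
    refine ⟨Nat.card (H.K ⧸ S), fun r hr => ?_⟩
    rw [← hZ.fr r, ← hZ.rk r]
    refine even_bound H a1 S hr (Z r) fun x hx v hv => hfix (H.mat x) (fun i => ?_) r v hv
    exact (Subgroup.mem_iInf.1 hx i)
  · left
    push Not at hfin
    obtain ⟨r, c, hcZ, hinf⟩ := hfin
    have hr0 : 0 < r := by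
      rcases Nat.eq_zero_or_pos r with h | h
      · exfalso
        subst h
        refine hinf ((Set.finite_singleton (hT c c)).subset ?_)
        rintro _ ⟨x, rfl⟩
        show hT (gT (H.mat x) c) c = hT c c
        rw [gT_zero_len]
      · exact h
    exact ⟨r, hr0, fun n => root_law hZ a2 hrk d hd hI hr0 hcZ hinf n⟩

end GG

end Pool.Agent.Lib.MP_361a6f_ag.FL
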