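import Pool.Agent.Lib.MP_361a6f_ag.FL.GG.DefsE
import Pool.Agent.Lib.MP_361a6f_ag.FL.GG.Gro
import Pool.Agent.Lib.MP_361a6f_ag.FL.O.Grow52

/-!
# The growth gap with an exponentially small error, for one compact group

If all stabilisers are open then the limit spaces consist of ALL tensors fixed by their common
stabiliser `S`, an open subgroup, so the dimensions are the integrals of the powers of the trace
over `S`; outside `S` the absolute value of the trace is bounded away from the dimension.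
-/

open Filter Topology MeasureTheory Module

set_option autoImplicit false
set_option linter.unusedSectionVars false
set_option linter.unusedVariables false
set_option maxHeartbeats 400000

namespace Pool.Agent.Lib.MP_361a6f_ag.FL

namespace GG

open OL Int52

section fix

variable {I Λ β : Type} [Fintype I] [DecidableEq I] [DecidableEq Λ] [Fintype β]
  {lb : β → ℕ} {D : Dat I Λ} {b : Tup I lb} (H : HMb D b) (a1 : Alg1)

/-- the tensors fixed by a subgroup -/
def fixP (S : Subgroup H.K) (L : ℕ) : Submodule ℂ (Ten I L) where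
  carrier := {v | ∀ x ∈ S, gT (H.mat x) v = v}
  add_mem' hu hv x hx := by rw [a1.gT_add, hu x hx, hv x hx]
  zero_mem' x _ := by
    have := a1.gT_smul (H.mat x) 0 (0 : Ten I L)
    rwa [zero_smul, zero_smul] at this
  smul_mem' c v hv x hx := by rw [a1.gT_smul, hv x hx]

/-- the functions `x ↦ ψ(z, x y)` and their combinations -/
def FF (Z : (L : ℕ) → Submodule ℂ (Ten I L)) : Submodule ℂ (H.K → ℂ) :=
  Submodule.span ℂ {f | ∃ (L : ℕ), ∃ z ∈ Z L, ∃ y : Ten I L,
    f = fun x => psiT D z (gT (H.mat x) y)}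

variable {Z : (L : ℕ) → Submodule ℂ (Ten I L)}

theorem one_mem_FF (h1 : (fun _ => (1 : ℂ)) ∈ Z 0) : (fun _ => 1) ∈ FF H Z := by
  refine Submodule.subset_span ⟨0, _, h1, fun _ => 1, ?_⟩
  funext x
  rw [gT_zero_len]
  unfold psiT sg
  simp

theorem const_mem_FF (h1 : (fun _ => (1 : ℂ)) ∈ Z 0) (c : ℂ) : (fun _ => c) ∈ FF H Z := by
  have h2 := Submodule.smul_mem (FF H Z) c (one_mem_FF H h1)
  have h3 : (c • fun _ => 1 : H.K → ℂ) = fun _ => c := by
    funext x
    simp
  rwa [h3] at h2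

theorem psiT_out {p q : ℕ} (u u' : Ten I p) (v v' : Ten I q) :
    psiT D (outer u v) (outer u' v') = psiT D u u' * psiT D v v' := by
  simp only [psiT]
  rw [Finset.sum_mul_sum, ← Finset.sum_product', Finset.univ_product_univ]
  refine (Fintype.sum_equiv (Fin.appendEquiv p q) _ _ fun x => ?_).symm
  obtain ⟨x, y⟩ := x
  have h1 : sg D (Fin.append x y) = sg D x * sg D y := by
    simp only [sg, Fin.prod_univ_add, Fin.append_left, Fin.append_right]
  have h0 : (Fin.appendEquiv p q) (x, y) = Fin.append x y := rfl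
  rw [h0, h1]
  simp only [outer, Function.comp_apply, Fin.append_left, Fin.append_right]
  have h2 : (fun i => D.τ (x i)) = D.τ ∘ x := rfl
  have h3 : (fun i => D.τ (y i)) = D.τ ∘ y := rfl
  rw [h2, h3]
  ring

theorem mul_mem_FF (a2 : Alg2) (ho : ∀ p q, ∀ u ∈ Z p, ∀ v ∈ Z q, outer u v ∈ Z (p + q))
    {f g : H.K → ℂ} (hf : f ∈ FF H Z) (hg : g ∈ FF H Z) : f * g ∈ FF H Z := by
  unfold FF at hf
  induction hf using Submodule.span_induction with
  | mem f hf =>
    obtain ⟨p, z, hz, y, rfl⟩ := hf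
    unfold FF at hg
    induction hg using Submodule.span_induction with
    | mem g hg =>
      obtain ⟨q, z', hz', y', rfl⟩ := hg
      refine Submodule.subset_span ⟨p + q, outer z z', ho p q z hz z' hz', outer y y', ?_⟩
      funext x
      rw [a2.outer_gT, psiT_out]
      rfl
    | zero =>
      rw [mul_zero]
      exact zero_mem _
    | add a b _ _ ha hb =>
      rw [mul_add]
      exact add_mem ha hb
    | smul c a _ ha =>
      rw [mul_smul_comm]
      exact Submodule.smul_mem _ c ha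
  | zero =>
    rw [zero_mul]
    exact zero_mem _
  | add a b _ _ ha hb =>
    rw [add_mul]
    exact add_mem ha hb
  | smul c a _ ha =>
    rw [smul_mul_assoc]
    exact Submodule.smul_mem _ c ha

theorem prod_mem_FF (a2 : Alg2) (h1 : (fun _ => (1 : ℂ)) ∈ Z 0)
    (ho : ∀ p q, ∀ u ∈ Z p, ∀ v ∈ Z q, outer u v ∈ Z (p + q)) {ι : Type*} (s : Finset ι)
    (f : ι → H.K → ℂ) (hf : ∀ i ∈ s, f i ∈ FF H Z) : ∏ i ∈ s, f i ∈ FF H Z := by
  classical
  induction s using Finset.induction_on with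
  | empty =>
    rw [Finset.prod_empty]
    exact one_mem_FF H h1
  | insert i s hi ih =>
    rw [Finset.prod_insert hi]
    exact mul_mem_FF H a2 ho (hf i (Finset.mem_insert_self _ _))
      (ih fun j hj => hf j (Finset.mem_insert_of_mem hj))

/-- the contraction as a linear map -/
def cLn (D : Dat I Λ) {p c : ℕ} (u : Ten I p) : Ten I (p + c) →ₗ[ℂ] Ten I c where
  toFun := cont D u
  map_add' := fun m m' => by
    funext w
    simp only [cont, Pi.add_apply, mul_add, Finset.sum_add_distrib]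
  map_smul' := fun a m => by
    funext w
    simp only [cont, Pi.smul_apply, smul_eq_mul, RingHom.id_apply, Finset.mul_sum]
    exact Finset.sum_congr rfl fun w' _ => by ring

theorem cLn_apply {p c : ℕ} (u : Ten I p) (m : Ten I (p + c)) : cLn D u m = cont D u m := rfl

/-- the average of a tensor with a weight in `FF` is in the limit space -/
theorem av_mem (a2 : Alg2)
    (hct : ∀ p c, ∀ u ∈ Z p, ∀ v ∈ fixS H a1 (p + c), cont D u v ∈ Z c)
    {f : H.K → ℂ} (hf : f ∈ FF H Z) : Continuous f ∧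
      ∀ (n : ℕ) (w : Ten I n), ∫ x, f x • gT (H.mat x) w ∂H.μ ∈ Z n := by
  have hcg : ∀ {n : ℕ} (w : Ten I n), Continuous fun x : H.K => gT (H.mat x) w :=
    fun w => AvbRow.cont_gT_k a1 H w
  have hcp : ∀ {p : ℕ} (z y : Ten I p), Continuous fun x : H.K => psiT D z (gT (H.mat x) y) := by
    intro p z y
    unfold psiT
    exact continuous_finsetSum _ fun w _ => continuous_const.mul
      (continuous_const.mul ((continuous_apply (D.τ ∘ w)).comp (hcg y)))
  unfold FF at hf
  induction hf using Submodule.span_induction with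
  | mem f hf =>
    obtain ⟨p, z, hz, y, rfl⟩ := hf
    refine ⟨hcp z y, fun n w => ?_⟩
    have h1 : ∫ x, psiT D z (gT (H.mat x) y) • gT (H.mat x) w ∂H.μ =
        cont D z (pro H a1 (p + n) (outer y w)) := by
      rw [pro_apply, ← cLn_apply]
      have h := ContinuousLinearMap.integral_comp_comm
        (LinearMap.toContinuousLinearMap (cLn D (c := n) z))
        (integ H (hcg (outer y w)))
      have h2 : (LinearMap.toContinuousLinearMap (cLn D (c := n) z))
          (∫ x, gT (H.mat x) (outer y w) ∂H.μ) =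
          cLn D z (∫ x, gT (H.mat x) (outer y w) ∂H.μ) := rfl
      rw [← h2, ← h]
      refine integral_congr_ae (Eventually.of_forall fun x => ?_)
      change psiT D z (gT (H.mat x) y) • gT (H.mat x) w = cont D z (gT (H.mat x) (outer y w))
      rw [a2.outer_gT, ORng.cont_outer]
    rw [h1]
    exact hct p n z hz _ (pro_mem H a1 _)
  | zero =>
    refine ⟨continuous_const, fun n w => ?_⟩
    have h1 : ∀ x : H.K, (0 : H.K → ℂ) x • gT (H.mat x) w = 0 := fun x => zero_smul _ _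
    simp only [h1, integral_zero]
    exact zero_mem _
  | add f g _ _ hf hg =>
    refine ⟨hf.1.add hg.1, fun n w => ?_⟩
    have h1 : ∀ x : H.K, (f + g) x • gT (H.mat x) w =
        f x • gT (H.mat x) w + g x • gT (H.mat x) w := fun x => add_smul _ _ _
    simp only [h1]
    rw [integral_add (f := fun x => f x • gT (H.mat x) w) (g := fun x => g x • gT (H.mat x) w)
      (integ H (hf.1.smul (hcg w))) (integ H (hg.1.smul (hcg w)))]
    exact add_mem (hf.2 n w) (hg.2 n w)
  | smul c f _ hf =>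
    refine ⟨hf.1.const_smul c, fun n w => ?_⟩
    have h1 : ∀ x : H.K, (c • f) x • gT (H.mat x) w = c • (f x • gT (H.mat x) w) := fun x => by
      change (c * f x) • gT (H.mat x) w = c • (f x • gT (H.mat x) w)
      rw [mul_smul]
    simp only [h1]
    rw [integral_smul]
    exact Submodule.smul_mem _ c (hf.2 n w)

include a1 in
/-- a function in `FF` that separates the coset of `x` from the subgroup -/
theorem separate {S : Subgroup H.K} (h1 : (fun _ => (1 : ℂ)) ∈ Z 0)
    (hS : ∀ s ∈ S, ∀ L, ∀ v ∈ Z L, gT (H.mat s) v = v) {x : H.K} {L : ℕ} {z : Ten I L}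
    (hz : z ∈ Z L) (hx : gT (H.mat x) z ≠ z) : ∃ f ∈ FF H Z, f 1 = 1 ∧ f x = 0 ∧
      ∀ s ∈ S, ∀ y, f (s * y) = f y := by
  -- `ψ(z, x Y) = ψ(x⁻¹ z, Y)`
  have hinv : ∀ (s : H.K) (Y : Ten I L), psiT D z (gT (H.mat s) Y) =
      psiT D (gT (H.mat s⁻¹) z) Y := by
    intro s Y
    rw [← a1.psiT_gT D (H.mat s) (gT (H.mat s⁻¹) z) Y (H.mem s).1.1, ← a1.gT_mul, ← map_mul,
      mul_inv_cancel, map_one, a1.gT_one]
  set u : Ten I L := gT (H.mat x⁻¹) z - z with hu
  have hu0 : u ≠ 0 := by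
    intro h0
    have h2 : gT (H.mat x⁻¹) z = z := sub_eq_zero.1 h0
    apply hx
    conv_lhs => rw [← h2]
    rw [← a1.gT_mul, ← map_mul, mul_inv_cancel, map_one, a1.gT_one]
  set Y : Ten I L := jT D u with hY
  have hne : psiT D z (gT (H.mat x) Y) - psiT D z (gT (H.mat 1) Y) ≠ 0 := by
    rw [hinv x Y, map_one, a1.gT_one]
    have h2 : psiT D (gT (H.mat x⁻¹) z) Y - psiT D z Y = psiT D u Y := by
      rw [hu]
      unfold psiT
      rw [← Finset.sum_sub_distrib]
      refine Finset.sum_congr rfl fun w _ => ?_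
      rw [Pi.sub_apply]
      ring
    rw [h2, hY, a1.psiT_jT, a1.hT_self]
    rw [Complex.ofReal_ne_zero]
    intro h3
    apply hu0
    funext w
    have h4 := (Finset.sum_eq_zero_iff_of_nonneg fun w _ => by positivity).1 h3 w
      (Finset.mem_univ w)
    simpa using h4
  set f₀ : H.K → ℂ := fun y => psiT D z (gT (H.mat y) Y) with hf₀
  have hf₀m : f₀ ∈ FF H Z := Submodule.subset_span ⟨L, z, hz, Y, rfl⟩
  set c : ℂ := f₀ 1 - f₀ x with hc
  have hc0 : c ≠ 0 := by
    intro h2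
    apply hne
    have h3 : f₀ x - f₀ 1 = -c := by
      rw [hc]
      ring
    change f₀ x - f₀ 1 = 0
    rw [h3, h2, neg_zero]
  refine ⟨c⁻¹ • (f₀ - fun _ => f₀ x), Submodule.smul_mem _ _ (sub_mem hf₀m
    (const_mem_FF H h1 _)), ?_, ?_, fun s hs y => ?_⟩
  · change c⁻¹ * (f₀ 1 - f₀ x) = 1
    exact inv_mul_cancel₀ hc0
  · change c⁻¹ * (f₀ x - f₀ x) = 0
    rw [sub_self, mul_zero]
  · change c⁻¹ * (f₀ (s * y) - f₀ x) = c⁻¹ * (f₀ y - f₀ x)
    have h2 : f₀ (s * y) = f₀ y := by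
      change psiT D z (gT (H.mat (s * y)) Y) = psiT D z (gT (H.mat y) Y)
      rw [map_mul, a1.gT_mul, hinv s, hS s⁻¹ (inv_mem hs) L z hz]
    rw [h2]

include a1 in
/-- the indicator of the stabiliser -/
theorem indicator (a2 : Alg2) {S : Subgroup H.K} [Finite (H.K ⧸ S)]
    (h1 : (fun _ => (1 : ℂ)) ∈ Z 0)
    (ho : ∀ p q, ∀ u ∈ Z p, ∀ v ∈ Z q, outer u v ∈ Z (p + q))
    (hS : ∀ s ∈ S, ∀ L, ∀ v ∈ Z L, gT (H.mat s) v = v)
    (hS' : ∀ x, x ∉ S → ∃ L, ∃ z ∈ Z L, gT (H.mat x) z ≠ z) :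
    ∃ f ∈ FF H Z, (∀ x ∈ S, f x = 1) ∧ ∀ x, x ∉ S → f x = 0 := by
  classical
  have := Fintype.ofFinite (H.K ⧸ S)
  have key : ∀ q : H.K ⧸ S, ∃ f ∈ FF H Z, f 1 = 1 ∧ (q.out⁻¹ ∉ S → f q.out⁻¹ = 0) ∧
      ∀ s ∈ S, ∀ y, f (s * y) = f y := by
    intro q
    by_cases hq : q.out⁻¹ ∈ S
    · exact ⟨fun _ => 1, one_mem_FF H h1, rfl, fun h => absurd hq h, fun _ _ _ => rfl⟩
    · obtain ⟨L, z, hz, hzx⟩ := hS' _ hq
      obtain ⟨f, hf, h2, h3, h4⟩ := separate H a1 (S := S) h1 hS hz hzx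
      exact ⟨f, hf, h2, fun _ => h3, h4⟩
  choose f hf h2 h3 h4 using key
  refine ⟨∏ q, f q, prod_mem_FF H a2 h1 ho _ _ fun q _ => hf q, fun x hx => ?_, fun x hx => ?_⟩
  · rw [Finset.prod_apply]
    refine Finset.prod_eq_one fun q _ => ?_
    have h5 := h4 q x hx 1
    rwa [mul_one, h2] at h5
  · rw [Finset.prod_apply]
    refine Finset.prod_eq_zero (Finset.mem_univ ((x⁻¹ : H.K) : H.K ⧸ S)) ?_
    obtain ⟨s, hs⟩ := QuotientGroup.mk_out_eq_mul S x⁻¹
    have h5 : (((x⁻¹ : H.K) : H.K ⧸ S).out)⁻¹ = (s : H.K)⁻¹ * x := by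
      rw [hs, mul_inv_rev, inv_inv]
    have h6 : (((x⁻¹ : H.K) : H.K ⧸ S).out)⁻¹ ∉ S := by
      rw [h5]
      intro h7
      exact hx ((S.mul_mem_cancel_left (inv_mem s.2)).1 h7)
    have h7 := h3 _ h6
    rw [h5, h4 _ _ (inv_mem s.2)] at h7
    exact h7

/-- **The limit spaces consist of the tensors fixed by their stabiliser.** -/
theorem fixP_le (a2 : Alg2) {S : Subgroup H.K} (hSo : IsOpen (S : Set H.K))
    (h1 : (fun _ => (1 : ℂ)) ∈ Z 0)
    (ho : ∀ p q, ∀ u ∈ Z p, ∀ v ∈ Z q, outer u v ∈ Z (p + q))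
    (hct : ∀ p c, ∀ u ∈ Z p, ∀ v ∈ fixS H a1 (p + c), cont D u v ∈ Z c)
    (hS : ∀ s ∈ S, ∀ L, ∀ v ∈ Z L, gT (H.mat s) v = v)
    (hS' : ∀ x, x ∉ S → ∃ L, ∃ z ∈ Z L, gT (H.mat x) z ≠ z) (n : ℕ) :
    fixP H a1 S n = Z n := by
  have : Finite (H.K ⧸ S) := Subgroup.quotient_finite_of_isOpen S hSo
  refine le_antisymm (fun w hw => ?_) fun w hw x hx => hS x hx n w hw
  obtain ⟨f, hf, hf1, hf0⟩ := indicator H a1 a2 h1 ho hS hS'
  have h2 := (av_mem H a1 a2 hct hf).2 n w
  have h3 : ∀ x : H.K, f x • gT (H.mat x) w = (S : Set H.K).indicator (fun _ => w) x := by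
    intro x
    by_cases hx : x ∈ S
    · rw [hf1 x hx, Set.indicator_of_mem (show x ∈ (S : Set H.K) from hx), one_smul]
      exact hw x hx
    · rw [hf0 x hx, Set.indicator_of_notMem (show x ∉ (S : Set H.K) from hx), zero_smul]
  simp only [h3] at h2
  rw [integral_indicator hSo.measurableSet, setIntegral_const] at h2
  have h4 : H.μ.real (S : Set H.K) ≠ 0 := by
    have h5 : H.μ (S : Set H.K) ≠ 0 := (hSo.measure_pos H.μ ⟨1, S.one_mem⟩).ne'
    rw [Measure.real, ENNReal.toReal_ne_zero]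
    exact ⟨h5, measure_ne_top _ _⟩
  have h5 : (H.μ.real (S : Set H.K) : ℂ) • w ∈ Z n := by
    have h6 : (H.μ.real (S : Set H.K) : ℂ) • w = H.μ.real (S : Set H.K) • w :=
      Complex.coe_smul _ _
    rw [h6]
    exact h2
  have h6 := Submodule.smul_mem (Z n) ((H.μ.real (S : Set H.K) : ℂ)⁻¹) h5
  rwa [smul_smul, inv_mul_cancel₀ (Complex.ofReal_ne_zero.2 h4), one_smul] at h6

end fix

section dims

open T2A OTrq O54

variable {I Λ β : Type} [Fintype I] [DecidableEq I] [DecidableEq Λ] [Fintype β]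
  {lb : β → ℕ} {D : Dat I Λ} {b : Tup I lb} (H : HMb D b) (a1 : Alg1)

theorem isClopen_sub {S : Subgroup H.K} (hSo : IsOpen (S : Set H.K)) : IsClopen (S : Set H.K) :=
  ⟨S.isClosed_of_isOpen hSo, hSo⟩

theorem real_pos {S : Subgroup H.K} (hSo : IsOpen (S : Set H.K)) :
    0 < H.μ.real (S : Set H.K) := by
  have h5 : H.μ (S : Set H.K) ≠ 0 := (hSo.measure_pos H.μ ⟨1, S.one_mem⟩).ne'
  rw [Measure.real]
  exact ENNReal.toReal_pos h5 (measure_ne_top _ _)

theorem card_mul {S : Subgroup H.K} (hSo : IsOpen (S : Set H.K)) :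
    (Nat.card (H.K ⧸ S) : ℝ) * H.μ.real (S : Set H.K) = 1 := by
  have : Finite (H.K ⧸ S) := Subgroup.quotient_finite_of_isOpen S hSo
  have : S.FiniteIndex := Subgroup.finiteIndex_of_finite_quotient
  have h1 := Subgroup.index_mul_measure S hSo.measurableSet H.μ
  rw [measure_univ] at h1
  have h2 := congrArg ENNReal.toReal h1
  rw [ENNReal.toReal_mul, ENNReal.toReal_natCast, ENNReal.toReal_one] at h2
  exact h2

/-- the dimension of the space of the tensors fixed by an open subgroup -/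
theorem finrank_fixP {S : Subgroup H.K} (hSo : IsOpen (S : Set H.K)) (n : ℕ) :
    (finrank ℂ (fixP H a1 S n) : ℝ) = Nat.card (H.K ⧸ S) *
      ∫ x in (S : Set H.K), (H.mat x).trace.re ^ n ∂H.μ := by
  classical
  set m : ℝ := H.μ.real (S : Set H.K) with hm
  have hm0 : 0 < m := real_pos H hSo
  have hcm : (Nat.card (H.K ⧸ S) : ℝ) = m⁻¹ := by
    have h1 := card_mul H hSo
    rw [← hm] at h1
    exact eq_inv_of_mul_eq_one_left h1
  have hcl := isClopen_sub H hSo
  set φ : H.K → ℂ := (S : Set H.K).indicator fun _ => ((m⁻¹ : ℝ) : ℂ) with hφ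
  have hφc : Continuous φ := continuous_indicator (fun a ha => by
    rw [hcl.frontier_eq] at ha
    exact ha.elim) continuousOn_const
  have hφS : ∀ y ∈ S, ∀ x, φ (y * x) = φ x := by
    intro y hy x
    rw [hφ]
    by_cases hx : x ∈ S
    · rw [Set.indicator_of_mem (show y * x ∈ (S : Set H.K) from mul_mem hy hx),
        Set.indicator_of_mem (show x ∈ (S : Set H.K) from hx)]
    · rw [Set.indicator_of_notMem (show y * x ∉ (S : Set H.K) from fun h =>
        hx ((S.mul_mem_cancel_left hy).1 h)),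
        Set.indicator_of_notMem (show x ∉ (S : Set H.K) from hx)]
  have hproj : LinearMap.IsProj (fixP H a1 S n) (av H a1 hφc H.cont_mat) := by
    refine ⟨fun v y hy => ?_, fun v hv => ?_⟩
    · rw [gT_av]
      have h1 : ∀ x : H.K, φ x • gT (H.mat y * H.mat x) v =
          (fun x => φ x • gT (H.mat x) v) (y * x) := by
        intro x
        simp only [map_mul, hφS y hy x]
      simp only [h1]
      rw [integral_mul_left_eq_self (μ := H.μ) (fun x => φ x • gT (H.mat x) v) y, av_apply]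
    · rw [av_apply]
      have h1 : ∀ x : H.K, φ x • gT (H.mat x) v =
          (S : Set H.K).indicator (fun _ => ((m⁻¹ : ℝ) : ℂ) • v) x := by
        intro x
        rw [hφ]
        by_cases hx : x ∈ S
        · rw [Set.indicator_of_mem (show x ∈ (S : Set H.K) from hx),
            Set.indicator_of_mem (show x ∈ (S : Set H.K) from hx), hv x hx]
        · rw [Set.indicator_of_notMem (show x ∉ (S : Set H.K) from hx),
            Set.indicator_of_notMem (show x ∉ (S : Set H.K) from hx), zero_smul]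
      simp only [h1]
      rw [integral_indicator hSo.measurableSet, setIntegral_const, ← hm]
      have h2 : m • (((m⁻¹ : ℝ) : ℂ) • v) = ((m : ℂ) * ((m⁻¹ : ℝ) : ℂ)) • v := by
        rw [mul_smul]
        exact (Complex.coe_smul m _).symm
      rw [h2, ← Complex.ofReal_mul, mul_inv_cancel₀ hm0.ne', Complex.ofReal_one, one_smul]
  have h1 := hproj.trace
  rw [tr_av] at h1
  have h2 : ∀ x : H.K, φ x * (H.mat x).trace ^ n =
      (((S : Set H.K).indicator (fun x => m⁻¹ * (H.mat x).trace.re ^ n) x : ℝ) : ℂ) := by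
    intro x
    rw [hφ]
    by_cases hx : x ∈ S
    · rw [Set.indicator_of_mem (show x ∈ (S : Set H.K) from hx),
        Set.indicator_of_mem (show x ∈ (S : Set H.K) from hx), trace_eq_re (H.mem x).1]
      push_cast
      rw [Complex.ofReal_re]
    · rw [Set.indicator_of_notMem (show x ∉ (S : Set H.K) from hx),
        Set.indicator_of_notMem (show x ∉ (S : Set H.K) from hx), zero_mul, Complex.ofReal_zero]
  simp only [h2] at h1
  rw [integral_complex_ofReal, integral_indicator hSo.measurableSet, integral_const_mul] at h1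
  rw [hcm]
  exact_mod_cast h1.symm

theorem eq_one_of_trace {M : Matrix I I ℂ} (hM : M.conjTranspose * M = 1)
    (h : M.trace.re = Fintype.card I) : M = 1 := by
  have h1 := fro_sub_one M hM
  rw [h, sub_self] at h1
  have h2 : M - 1 = 0 := by
    ext i j
    have h3 := entry_le (M - 1) i j
    rw [h1] at h3
    have h4 : ‖(M - 1) i j‖ = 0 := by
      have h5 : ‖(M - 1) i j‖ ^ 2 = 0 := le_antisymm h3 (by positivity)
      exact (pow_eq_zero_iff two_ne_zero).1 h5
    exact norm_eq_zero.1 h4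
  exact sub_eq_zero.1 h2

theorem trace_le {M : Matrix I I ℂ} (hM : M.conjTranspose * M = 1) :
    M.trace.re ≤ Fintype.card I := by
  have h1 := fro_sub_one M hM
  have h2 := fro_nonneg (M - 1)
  linarith

/-- away from `1` the trace is not extreme -/
theorem abs_trace_lt {v : Ten I 1} (hv : v ≠ 0) {x : H.K} (hvx : gT (H.mat x) v = v)
    (hx : x ≠ 1) : |(H.mat x).trace.re| < Fintype.card I := by
  have hu : (H.mat x).conjTranspose * H.mat x = 1 := (H.mem x).1.2
  have hu' : (-H.mat x).conjTranspose * (-H.mat x) = 1 := by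
    rw [Matrix.conjTranspose_neg, neg_mul_neg, hu]
  have htr : (-H.mat x).trace.re = -(H.mat x).trace.re := by
    rw [Matrix.trace_neg, Complex.neg_re]
  rw [abs_lt]
  constructor
  · have h1 := trace_le hu'
    rw [htr] at h1
    rcases lt_or_eq_of_le h1 with h2 | h2
    · linarith
    · exfalso
      have h3 : -H.mat x = 1 := eq_one_of_trace hu' (by rw [htr, h2])
      have h4 : H.mat x = -1 := by rw [← h3, neg_neg]
      apply hv
      rw [h4] at hvx
      funext w
      have h5 := congrFun hvx w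
      have h6 : gT (-1 : Matrix I I ℂ) v w = - v w := by
        unfold gT
        rw [Finset.sum_eq_single w]
        · simp [Matrix.neg_apply, Matrix.one_apply_eq]
        · intro w' _ hne
          have h7 : w 0 ≠ w' 0 := by
            intro h8
            apply hne
            funext i
            rw [Subsingleton.elim i 0, h8]
          simp [Matrix.neg_apply, Matrix.one_apply_ne h7]
        · intro h
          exact absurd (Finset.mem_univ _) h
      rw [h6] at h5
      have h7 : (2 : ℂ) * v w = 0 := by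
        rw [two_mul]
        nth_rewrite 1 [← h5]
        exact neg_add_cancel _
      simpa using h7
  · refine lt_of_le_of_ne (trace_le hu) fun h => hx ?_
    exact H.inj (by rw [eq_one_of_trace hu h, map_one])

/-- outside an open subgroup the trace is bounded away from the dimension -/
theorem exists_ratio {S : Subgroup H.K} (hSo : IsOpen (S : Set H.K)) {v : Ten I 1} (hv : v ≠ 0)
    (hf : v ∈ fixS H a1 1) (d : ℕ) (hd : 0 < d) (hI : Fintype.card I = d) :
    ∃ c : ℝ, 0 ≤ c ∧ c < 1 ∧ ∀ x, x ∉ S → |(H.mat x).trace.re| ≤ c * d := by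
  have hdR : (0 : ℝ) < d := by exact_mod_cast hd
  have hcomp : IsCompact ((S : Set H.K)ᶜ) := hSo.isClosed_compl.isCompact
  rcases ((S : Set H.K)ᶜ).eq_empty_or_nonempty with h0 | hne
  · refine ⟨0, le_rfl, one_pos, fun x hx => ?_⟩
    have h1 : x ∈ ((S : Set H.K)ᶜ) := hx
    rw [h0] at h1
    exact h1.elim
  · obtain ⟨x₀, hx₀, hmax⟩ := hcomp.exists_isMaxOn hne (cont_trace_re H).abs.continuousOn
    have h1 : |(H.mat x₀).trace.re| < d := by
      rw [← hI]
      refine abs_trace_lt H hv (hf x₀) ?_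
      rintro rfl
      exact hx₀ S.one_mem
    refine ⟨|(H.mat x₀).trace.re| / d, by positivity, (div_lt_one hdR).2 h1, fun x hx => ?_⟩
    rw [div_mul_cancel₀ _ hdR.ne']
    exact hmax hx

end dims

/-- `n^k c^n` is bounded by a smaller power -/
theorem exists_bound (k : ℕ) {c : ℝ} (hc0 : 0 ≤ c) (hc1 : c < 1) :
    ∃ B c' : ℝ, 0 ≤ B ∧ 0 ≤ c' ∧ c' < 1 ∧ ∀ n : ℕ, (n : ℝ) ^ k * c ^ n ≤ B * c' ^ n := by
  set c' : ℝ := (1 + c) / 2 with hc'
  have h0 : 0 < c' := by rw [hc']; linarith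
  have h1 : c' < 1 := by rw [hc']; linarith
  have h2 : c < c' := by rw [hc']; linarith
  have hr0 : 0 ≤ c / c' := by positivity
  have hr1 : c / c' < 1 := (div_lt_one h0).2 h2
  have h3 := tendsto_pow_const_mul_const_pow_of_abs_lt_one k (r := c / c')
    (by rwa [abs_of_nonneg hr0])
  obtain ⟨B, hB⟩ := h3.bddAbove_range
  refine ⟨max B 0, c', le_max_right _ _, h0.le, h1, fun n => ?_⟩
  have h4 : (n : ℝ) ^ k * (c / c') ^ n ≤ B := hB ⟨n, rfl⟩
  have h5 : (n : ℝ) ^ k * c ^ n = ((n : ℝ) ^ k * (c / c') ^ n) * c' ^ n := by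
    rw [mul_assoc, ← mul_pow, div_mul_cancel₀ _ h0.ne']
  rw [h5]
  exact mul_le_mul_of_nonneg_right (h4.trans (le_max_left _ _)) (by positivity)

section main

variable {I Λ β : Type} [Fintype I] [DecidableEq I] [DecidableEq Λ] [Fintype β]
  {lb : β → ℕ} {D : Dat I Λ} {b : Tup I lb} {H : HMb D b} {a1 : Alg1}
  {At : (L : ℕ) → Ten I L → Prop} {T Z : (L : ℕ) → Submodule ℂ (Ten I L)}

/-- the exponential law for an open stabiliser -/
theorem exp_open (hZ : LS D At T H a1 Z) (a2 : Alg2) (hrk : ∀ L, 0 < rkA D At L) (d : ℕ)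
    (hd : 0 < d) (hI : Fintype.card I = d) {S : Subgroup H.K} (hSo : IsOpen (S : Set H.K))
    (hS : ∀ s ∈ S, ∀ L, ∀ v ∈ Z L, gT (H.mat s) v = v)
    (hS' : ∀ x, x ∉ S → ∃ L, ∃ z ∈ Z L, gT (H.mat x) z ≠ z) :
    (∃ C c : ℝ, 0 ≤ C ∧ 0 ≤ c ∧ c < 1 ∧ ∀ n : ℕ, 0 < n →
      |(finrank ℂ (T n) : ℝ) - Nat.card (H.K ⧸ S) * rkA D At n| ≤ C * c ^ n * rkA D At n) ∧
    ∀ n : ℕ, Even n → finrank ℂ (T n) ≤ Nat.card (H.K ⧸ S) * rkA D At n := by
  obtain ⟨v, hvf, hv1⟩ := unit_fix H a1 (L := 1) (by rw [hZ.rk]; exact hrk 1)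
  have hv0 : v ≠ 0 := by
    rintro rfl
    unfold hT at hv1
    simp at hv1
  have h1Z : (fun _ => (1 : ℂ)) ∈ Z 0 := hZ.le 0 fun x => gT_zero_len _ _
  have hdR : (1 : ℝ) ≤ d := by exact_mod_cast hd
  set m : ℝ := (Nat.card (H.K ⧸ S) : ℝ) with hm
  have hm0 : 0 ≤ m := Nat.cast_nonneg _
  -- the difference
  have hdiff : ∀ n : ℕ, m * (rkA D At n : ℝ) - (finrank ℂ (T n) : ℝ) =
      m * ∫ x in (S : Set H.K)ᶜ, (H.mat x).trace.re ^ n ∂H.μ := by
    intro n
    have h1 : (finrank ℂ (T n) : ℝ) = m * ∫ x in (S : Set H.K), (H.mat x).trace.re ^ n ∂H.μ := by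
      rw [← hZ.fr n, ← fixP_le H a1 a2 hSo h1Z hZ.ho hZ.hct hS hS' n]
      exact finrank_fixP H a1 hSo n
    have h2 : (rkA D At n : ℝ) = ∫ x, (H.mat x).trace.re ^ n ∂H.μ := by
      rw [← hZ.rk n]
      exact finrank_fixS_re H a1 n
    have h3 := integral_add_compl (f := fun x : H.K => (H.mat x).trace.re ^ n)
      hSo.measurableSet (integ H ((cont_trace_re H).pow n))
    rw [h1, h2, ← h3]
    ring
  constructor
  · obtain ⟨c, hc0, hc1, hc⟩ := exists_ratio H a1 hSo hv0 hvf d hd hI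
    obtain ⟨B, c', hB0, hc'0, hc'1, hB⟩ := exists_bound (d ^ 2) hc0 hc1
    refine ⟨m * (600 * (d : ℝ) ^ 3) ^ (d ^ 2) * B, c', by positivity, hc'0, hc'1,
      fun n hn => ?_⟩
    have hN0 : (0 : ℝ) ≤ rkA D At n := Nat.cast_nonneg _
    have h1 : |∫ x in (S : Set H.K)ᶜ, (H.mat x).trace.re ^ n ∂H.μ| ≤ (c * d) ^ n := by
      have h2 : ‖∫ x in (S : Set H.K)ᶜ, (H.mat x).trace.re ^ n ∂H.μ‖ ≤
          (c * d) ^ n * H.μ.real ((S : Set H.K)ᶜ) := by
        refine norm_setIntegral_le_of_norm_le_const (measure_lt_top _ _) fun x hx => ?_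
        rw [Real.norm_eq_abs, abs_pow]
        exact pow_le_pow_left₀ (abs_nonneg _) (hc x hx) n
      have h3 : H.μ.real ((S : Set H.K)ᶜ) ≤ 1 := measureReal_le_one
      rw [Real.norm_eq_abs] at h2
      refine h2.trans ?_
      have h4 : (0 : ℝ) ≤ (c * d) ^ n := by positivity
      nlinarith
    have h2 := O52.grow_fix H a1 d hd hI hv0 hvf n hn
    rw [hZ.rk n] at h2
    have h3 : |(finrank ℂ (T n) : ℝ) - m * rkA D At n| =
        m * |∫ x in (S : Set H.K)ᶜ, (H.mat x).trace.re ^ n ∂H.μ| := by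
      rw [abs_sub_comm, hdiff n, abs_mul, abs_of_nonneg hm0]
    rw [h3]
    have h4 : (c * d) ^ n ≤
        (600 * (d : ℝ) ^ 3) ^ (d ^ 2) * B * c' ^ n * rkA D At n := by
      have h5 : c ^ n * (d : ℝ) ^ n ≤
          c ^ n * ((600 * (d : ℝ) ^ 3 * n) ^ (d ^ 2) * rkA D At n) :=
        mul_le_mul_of_nonneg_left h2 (by positivity)
      have h6 : c ^ n * ((600 * (d : ℝ) ^ 3 * n) ^ (d ^ 2) * rkA D At n) =
          (600 * (d : ℝ) ^ 3) ^ (d ^ 2) * rkA D At n * ((n : ℝ) ^ (d ^ 2) * c ^ n) := by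
        rw [mul_pow (600 * (d : ℝ) ^ 3)]
        ring
      have h7 : (600 * (d : ℝ) ^ 3) ^ (d ^ 2) * rkA D At n * ((n : ℝ) ^ (d ^ 2) * c ^ n) ≤
          (600 * (d : ℝ) ^ 3) ^ (d ^ 2) * rkA D At n * (B * c' ^ n) :=
        mul_le_mul_of_nonneg_left (hB n) (by positivity)
      calc (c * d) ^ n = c ^ n * (d : ℝ) ^ n := mul_pow _ _ _
        _ ≤ _ := h5
        _ = _ := h6
        _ ≤ _ := h7
        _ = _ := by ring
    calc m * |∫ x in (S : Set H.K)ᶜ, (H.mat x).trace.re ^ n ∂H.μ|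
        ≤ m * ((600 * (d : ℝ) ^ 3) ^ (d ^ 2) * B * c' ^ n * rkA D At n) :=
          mul_le_mul_of_nonneg_left (h1.trans h4) hm0
      _ = _ := by ring
  · intro n hn
    have h1 := hdiff n
    have h2 : 0 ≤ ∫ x in (S : Set H.K)ᶜ, (H.mat x).trace.re ^ n ∂H.μ :=
      integral_nonneg fun x => hn.pow_nonneg _
    have h3 : (finrank ℂ (T n) : ℝ) ≤ m * rkA D At n := by
      have := mul_nonneg hm0 h2
      linarith
    rw [hm] at h3
    exact_mod_cast h3

end main

/-- **The growth gap with an exponential error**, for one compact group. -/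
theorem exp : ExpStatement := by
  intro a1 a2 I Λ β _ _ _ _ D At T lb b H Z hZ hrk d hd hI
  classical
  by_cases hfin : ∀ r, ∀ c ∈ Z r, (Set.range fun x : H.K => hT (gT (H.mat x) c) c).Finite
  · right
    obtain ⟨ι, _, len, t, ht, hfix⟩ := noeT fun L => (Z L : Set (Ten I L))
    let S : Subgroup H.K := ⨅ i, St H a1 (t i)
    have hS : IsOpen (S : Set H.K) := by
      rw [Subgroup.coe_iInf]
      exact isOpen_iInter_of_finite fun i => isOpen_St H a1 (t i) (hfin _ _ (ht i))
    obtain ⟨⟨C, c, hC0, hc0, hc1, h1⟩, h2⟩ := exp_open hZ a2 hrk d hd hI hS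
      (fun x hx r v hv => hfix (H.mat x) (fun i => Subgroup.mem_iInf.1 hx i) r v hv)
      fun x hx => by
        by_contra h
        push Not at h
        exact hx (Subgroup.mem_iInf.2 fun i => h _ _ (ht i))
    refine ⟨Nat.card (H.K ⧸ S), C + |(finrank ℂ (T 0) : ℝ) - Nat.card (H.K ⧸ S) * rkA D At 0|, c,
      hc0, hc1, fun n => ?_, h2⟩
    have h3 := abs_nonneg ((finrank ℂ (T 0) : ℝ) - Nat.card (H.K ⧸ S) * rkA D At 0)
    rcases Nat.eq_zero_or_pos n with rfl | hn
    · have h4 : (1 : ℝ) ≤ rkA D At 0 := by exact_mod_cast hrk 0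
      rw [pow_zero, mul_one]
      nlinarith
    · refine (h1 n hn).trans (mul_le_mul_of_nonneg_right ?_ (Nat.cast_nonneg _))
      exact mul_le_mul_of_nonneg_right (by linarith) (by positivity)
  · left
    push Not at hfin
    obtain ⟨r, c, hcZ, hinf⟩ := hfin
    have hr0 : 0 < r := by
      rcases Nat.eq_zero_or_pos r with h | h
      · exfalso
        subst h
        refine hinf ((Set.finite_singleton (hT c c)).subset ?_)
        rintro _ ⟨x, rfl⟩
        show hT (gT (H.mat x) c) c = hT c c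
        rw [gT_zero_len]
      · exact h
    exact ⟨r, hr0, fun n => root_law hZ a2 hrk d hd hI hr0 hcZ hinf n⟩

end GG

end Pool.Agent.Lib.MP_361a6f_ag.FL
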