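import Pool.Agent.Lib.MP_361a6f_ag.FL.GG.Defs
import Pool.Agent.Lib.MP_361a6f_ag.FL.O.IntH52

/-!
# The growth gap: transfer to varieties
-/

open CategoryTheory AlgebraicGeometry MonoidalCategory CartesianMonoidalCategory Filter Topology

universe u v w

set_option autoImplicit false
set_option linter.unusedSectionVars false
set_option linter.unusedVariables false

namespace Pool.Agent.Lib.MP_361a6f_ag.FL

open Pool.Agent.Lib.MP_361a6f_ag.H3 Pool.Agent.Lib.MP_361a6f_ag.SQ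
  Pool.Agent.Lib.MP_361a6f_ag.PP

namespace GG44

open OL PRK PGC IntW

variable {k : Type u} [Field k] {W : CohomologyData.{u, 0, w} k ℂ} {𝒱 : VarietyClass k}

/-- the growth gap for the host -/
theorem host (lim : GG.LimStatement) (gro : GG.GroStatement) (H : PHost W 𝒱 1)
    {T : ∀ P : Prd 1, Submodule ℂ (W.coh (P.obj H.X))} (hT : TateW.TSys H T)
    {p : W.coh (H.X 0)} (hp : p ∈ tot W (H.X 0)) (hp0 : W.tr (H.X 0) p ≠ 0)
    (hd : 0 < Module.finrank ℂ (W.coh (H.X 0))) :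
    (∃ r : ℕ, 0 < r ∧ ∀ P : Prd 1, √P.size * (rankN W (P.obj H.X) : ℝ) ≤
      160 * r * (Module.finrank ℂ (W.coh (H.X 0)) : ℝ) ^ 3 * Module.finrank ℂ (T P)) ∨
    ∃ q : ℕ, ∀ P : Prd 1, Even P.size →
      Module.finrank ℂ (T P) ≤ q * rankN W (P.obj H.X) := by
  have ge := pge H
  have gr := pgr pge H
  have hsl := psl pge H
  have hu := exists_one H hsl ge hp hp0
  have hfin : ∀ P : Prd 1,
      Module.finrank ℂ (TateW.TT H T P.size) = Module.finrank ℂ (T P) := by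
    intro P
    rw [TateW.TT_eq hT]
    exact ((Submodule.equivMapOfInjective (H.tc P) (ge.inj P) _).finrank_eq).symm
  obtain ⟨β, _, lb, b, H', Z, hZ⟩ := lim alg1 alg2 (algB alg1 alg2) cptbH (minb alg1) T2A.hl1
    T2A.hl2 (pasys H) (TateW.CA_le hT) (TateW.TT_outer hT) (TateW.TT_cont hT)
  have hpos : ∀ L, 0 < rkA H.D (AtP H) L := by
    intro L
    rcases Nat.eq_zero_or_pos L with rfl | hL
    · rw [← hZ.rk 0]
      have h1 := OL.finrank_fixS_re H' alg1 0
      simp only [pow_zero] at h1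
      rw [MeasureTheory.integral_const] at h1
      have h2 : (Module.finrank ℂ (fixS H' alg1 0) : ℝ) = 1 := by
        simpa using h1
      have h3 : Module.finrank ℂ (fixS H' alg1 0) = 1 := by exact_mod_cast h2
      omega
    · obtain ⟨P, rfl⟩ := TateW.exists_prd L hL
      have h1 := O52.grow_c alg1 alg2 (algB alg1 alg2) cptbH (minb alg1) T2A.hl1 T2A.hl2
        (pasys H) hu P.size P.size_posC
      rw [card_I H ge] at h1
      have h2 : (0 : ℝ) < (Module.finrank ℂ (W.coh (H.X 0)) : ℝ) ^ P.size := by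
        have : (0 : ℝ) < Module.finrank ℂ (W.coh (H.X 0)) := by exact_mod_cast hd
        positivity
      by_contra h3
      have h4 : rkA H.D (AtP H) P.size = 0 := by omega
      rw [h4, Nat.cast_zero, mul_zero] at h1
      linarith
  rcases gro alg1 alg2 H' hZ hpos (Module.finrank ℂ (W.coh (H.X 0))) hd (card_I H ge) with
    ⟨r, hr, h⟩ | ⟨q, h⟩
  · left
    refine ⟨r, hr, fun P => ?_⟩
    have h1 := h P.size
    rwa [rkA_eq H hsl gr ge, hfin] at h1
  · right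
    refine ⟨q, fun P hP => ?_⟩
    have h1 := h P.size hP
    rwa [rkA_eq H hsl gr ge, hfin] at h1

/-- transfer of a property of closed families from the hosts to the varieties -/
theorem transferC (Q : ∀ (Y : Fin 1 → Sch k), (∀ P : Prd 1, Submodule ℂ (W.coh (P.obj Y))) → Prop)
    (hQ : ∀ (H : PHost W 𝒱 1) (p : W.coh (H.X 0)), p ∈ tot W (H.X 0) → W.tr (H.X 0) p ≠ 0 →
      0 < Module.finrank ℂ (W.coh (H.X 0)) →
      ∀ T : ∀ P : Prd 1, Submodule ℂ (W.coh (P.obj H.X)), TateW.TSys H T → Q H.X T)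
    (hW : IsWeilCohomology W 𝒱) {X : Fin 1 → Sch k} {e : ℕ}
    (hX : 𝒱.mem (X 0) e) (hE : EvenProjector W (X 0) e) (h0 : (1 : W.coh (X 0)) ≠ 0)
    {T : ∀ P : Prd 1, Submodule ℂ (W.coh (P.obj X))} (hT : ClosedFamily W X T)
    (hTe : ExtClosed W X T) : Q X T := by
  obtain ⟨p, hp, t, ht, hpt⟩ := SPT.spt hW hX hE h0
  have hp0 : W.tr (X 0) p ≠ 0 := by
    have h1 : W.tr (X 0) p = (t : ℂ) := hpt
    rw [h1]
    exact_mod_cast ht.ne'
  have hp' : p ∈ tot W (X 0) := alg_le_tot hW (X 0) e hp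
  have hX' : ∀ a, 𝒱.mem (X a) e := fun a => by
    rw [Subsingleton.elim a 0]
    exact hX
  obtain ⟨H, hHX, hHn⟩ := pgb hW (X := X) (n := fun _ => e) hX' (fun a => by
    rw [Subsingleton.elim a 0]
    exact PMain.algPar hW hX hE)
  have key : ∀ (Y : Fin 1 → Sch k) (_ : H.X = Y) {p : W.coh (Y 0)} (_ : p ∈ tot W (Y 0))
      (_ : W.tr (Y 0) p ≠ 0) (_ : (1 : W.coh (Y 0)) ≠ 0)
      (T : ∀ P : Prd 1, Submodule ℂ (W.coh (P.obj Y)))
      (_ : ∀ P, algC W (P.obj Y) ≤ T P)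
      (_ : ∀ (P Q : Prd 1), ∀ s ∈ T P, ∀ t ∈ T Q,
        W.pull (fst (P.obj Y) (Q.obj Y)) s * W.pull (snd (P.obj Y) (Q.obj Y)) t ∈ T (.prod P Q))
      (_ : ∀ (P Q : Prd 1) (l : ℕ), ∀ a ∈ W.alg (P.obj Y ⊗ Q.obj Y) l, ∀ t ∈ T P,
        cor W (X := P.obj Y) (Y := Q.obj Y) a t ∈ T Q), Q Y T := by
    intro Y hY p hp hp0 h0 T h1 h2 h3
    subst hY
    have hd : 0 < Module.finrank ℂ (W.coh (H.X 0)) := by
      have hfd : Module.Finite ℂ (W.coh (H.X 0)) := H.hW.finite (H.mem 0)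
      exact Module.finrank_pos_iff_exists_ne_zero.2 ⟨1, h0⟩
    exact hQ H p hp hp0 hd T ⟨h1, h2, h3⟩
  exact key X hHX hp' hp0 h0 T hT.alg hTe (fun P Q l a ha t ht =>
    hT.corr P Q a (Submodule.subset_span ⟨l, ha⟩) t ht)

/-- **The growth gap.** -/
theorem gap (lim : GG.LimStatement) (gro : GG.GroStatement)
    (hW : IsWeilCohomology W 𝒱) {X : Fin 1 → Sch k} {e : ℕ}
    (hX : 𝒱.mem (X 0) e) (hE : EvenProjector W (X 0) e)
    {T : ∀ P : Prd 1, Submodule ℂ (W.coh (P.obj X))} (hT : ClosedFamily W X T)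
    (hTe : ExtClosed W X T) :
    (∃ C : ℝ, ∀ P : Prd 1, (rankN W (P.obj X) : ℝ) ≤
      C / √P.size * Module.finrank ℂ (T P)) ∨
    ∃ m : ℕ, 1 ≤ m ∧ Multiple W X T m ∧
      (∀ P : Prd 1, Even P.size → Module.finrank ℂ (T P) ≤ m * rankN W (P.obj X)) ∧
      (∀ P : Prd 1, ConjectureD W (P.obj X) ∧ NondegOn W (T P)) ∧
      (m = 1 ↔ ∀ P, T P = algC W (P.obj X)) := by
  by_cases h0 : (1 : W.coh (X 0)) = 0
  · left
    refine ⟨0, fun P => ?_⟩
    rw [rankN_zero h0 P]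
    simp
  have hN : ∀ P : Prd 1, (0 : ℝ) < rankN W (P.obj X) := fun P => by
    exact_mod_cast rankN_pos hW hX hE h0 P
  rcases transferC (W := W) (𝒱 := 𝒱) (fun Y T =>
    (∃ r : ℕ, 0 < r ∧ ∀ P : Prd 1, √P.size * (rankN W (P.obj Y) : ℝ) ≤
      160 * r * (Module.finrank ℂ (W.coh (Y 0)) : ℝ) ^ 3 * Module.finrank ℂ (T P)) ∨
    ∃ q : ℕ, ∀ P : Prd 1, Even P.size →
      Module.finrank ℂ (T P) ≤ q * rankN W (P.obj Y))
    (fun H p hp hp0 hd T hT => host lim gro H hT hp hp0 hd) hW hX hE h0 hT hTe with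
    ⟨r, -, h⟩ | ⟨q, h⟩
  · left
    refine ⟨160 * r * (Module.finrank ℂ (W.coh (X 0)) : ℝ) ^ 3, fun P => ?_⟩
    have hs : (0 : ℝ) < √P.size := Real.sqrt_pos.2 (by exact_mod_cast P.size_posC)
    rw [div_mul_eq_mul_div, le_div_iff₀ hs]
    linarith [h P]
  · right
    rcases main hW hX hE h0 (T := T) hT.corr with h1 | ⟨m, hm, hev, hA⟩
    · exfalso
      obtain ⟨s, hs, hs'⟩ := mem_comap.1 (h1.eventually_gt_atTop (q : ℝ))
      obtain ⟨N, hN'⟩ := mem_atTop_sets.1 hs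
      obtain ⟨P, hP⟩ := TateW.exists_prd (2 * N + 2) (by omega)
      have h2 : (q : ℝ) < (Module.finrank ℂ (T P) : ℝ) / rankN W (P.obj X) :=
        hs' (hN' P.size (by omega))
      have h3 := h P ⟨N + 1, by omega⟩
      rw [lt_div_iff₀ (hN P)] at h2
      have h4 : (Module.finrank ℂ (T P) : ℝ) ≤ q * rankN W (P.obj X) := by exact_mod_cast h3
      linarith
    · obtain ⟨hD, hnd, hiff⟩ := hA hT.alg
      refine ⟨m, ?_, hm, hev, fun P => ⟨hD P, hnd hTe P⟩, hiff⟩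
      by_contra hm0
      have hm1 : m = 0 := by omega
      obtain ⟨P, hP⟩ := TateW.exists_prd 2 (by omega)
      have h2 := hev P ⟨1, by omega⟩
      rw [hm1, zero_mul] at h2
      have h3 : rankN W (P.obj X) ≤ Module.finrank ℂ (T P) := by
        have hX' : ∀ a, 𝒱.mem (X a) e := fun a => by
          rw [Subsingleton.elim a 0]
          exact hX
        have hfP : Module.Finite ℂ (W.coh (P.obj X)) :=
          hW.finite (memP (X := X) (n := fun _ => e) hX' P)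
        exact (rankN_le (W := W) (P.obj X)).trans (Submodule.finrank_mono (hT.alg P))
      have h4 := rankN_pos hW hX hE h0 P
      omega

end GG44

end Pool.Agent.Lib.MP_361a6f_ag.FL
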