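import Pool.Agent.Lib.MP_361a6f_ag.FL.GG.DefsE
import Pool.Agent.Lib.MP_361a6f_ag.FL.GG.Geo44

/-!
# The growth gap with an exponentially small error: transfer to varieties
-/

open CategoryTheory AlgebraicGeometry MonoidalCategory CartesianMonoidalCategory Filter Topology

universe u v w

set_option autoImplicit false
set_option linter.unusedSectionVars false
set_option linter.unusedVariables false

namespace Pool.Agent.Lib.MP_361a6f_ag.FL

open Pool.Agent.Lib.MP_361a6f_ag.H3 Pool.Agent.Lib.MP_361a6f_ag.SQ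
  Pool.Agent.Lib.MP_361a6f_ag.PP

namespace GG44

open OL PRK PGC IntW

variable {k : Type u} [Field k] {W : CohomologyData.{u, 0, w} k ℂ} {𝒱 : VarietyClass k}

/-- the growth gap for the host -/
theorem hostE (lim : GG.LimStatement) (ex : GG.ExpStatement) (H : PHost W 𝒱 1)
    {T : ∀ P : Prd 1, Submodule ℂ (W.coh (P.obj H.X))} (hT : TateW.TSys H T)
    {p : W.coh (H.X 0)} (hp : p ∈ tot W (H.X 0)) (hp0 : W.tr (H.X 0) p ≠ 0)
    (hd : 0 < Module.finrank ℂ (W.coh (H.X 0))) :
    (∃ r : ℕ, 0 < r ∧ ∀ P : Prd 1, √P.size * (rankN W (P.obj H.X) : ℝ) ≤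
      160 * r * (Module.finrank ℂ (W.coh (H.X 0)) : ℝ) ^ 3 * Module.finrank ℂ (T P)) ∨
    ∃ (q : ℕ) (C c : ℝ), 0 ≤ c ∧ c < 1 ∧
      (∀ P : Prd 1, |(Module.finrank ℂ (T P) : ℝ) - q * rankN W (P.obj H.X)| ≤
        C * c ^ P.size * rankN W (P.obj H.X)) ∧
      ∀ P : Prd 1, Even P.size → Module.finrank ℂ (T P) ≤ q * rankN W (P.obj H.X) := by
  have ge := pge H
  have gr := pgr pge H
  have hsl := psl pge H
  have hu := exists_one H hsl ge hp hp0
  have hfin : ∀ P : Prd 1,
      Module.finrank ℂ (TateW.TT H T P.size) = Module.finrank ℂ (T P) := by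
    intro P
    rw [TateW.TT_eq hT]
    exact ((Submodule.equivMapOfInjective (H.tc P) (ge.inj P) _).finrank_eq).symm
  obtain ⟨β, _, lb, b, H', Z, hZ⟩ := lim alg1 alg2 (algB alg1 alg2) cptbH (minb alg1) T2A.hl1
    T2A.hl2 (pasys H) (TateW.CA_le hT) (TateW.TT_outer hT) (TateW.TT_cont hT)
  have hpos : ∀ L, 0 < rkA H.D (AtP H) L := by
    intro L
    rcases Nat.eq_zero_or_pos L with rfl | hL
    · rw [← hZ.rk 0]
      have h1 := OL.finrank_fixS_re H' alg1 0
      simp only [pow_zero] at h1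
      rw [MeasureTheory.integral_const] at h1
      have h2 : (Module.finrank ℂ (fixS H' alg1 0) : ℝ) = 1 := by
        simpa using h1
      have h3 : Module.finrank ℂ (fixS H' alg1 0) = 1 := by exact_mod_cast h2
      omega
    · obtain ⟨P, rfl⟩ := TateW.exists_prd L hL
      have h1 := O52.grow_c alg1 alg2 (algB alg1 alg2) cptbH (minb alg1) T2A.hl1 T2A.hl2
        (pasys H) hu P.size P.size_posC
      rw [card_I H ge] at h1
      have h2 : (0 : ℝ) < (Module.finrank ℂ (W.coh (H.X 0)) : ℝ) ^ P.size := by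
        have : (0 : ℝ) < Module.finrank ℂ (W.coh (H.X 0)) := by exact_mod_cast hd
        positivity
      by_contra h3
      have h4 : rkA H.D (AtP H) P.size = 0 := by omega
      rw [h4, Nat.cast_zero, mul_zero] at h1
      linarith
  rcases ex alg1 alg2 H' hZ hpos (Module.finrank ℂ (W.coh (H.X 0))) hd (card_I H ge) with
    ⟨r, hr, h⟩ | ⟨q, C, c, hc0, hc1, h, he⟩
  · left
    refine ⟨r, hr, fun P => ?_⟩
    have h1 := h P.size
    rwa [rkA_eq H hsl gr ge, hfin] at h1
  · right
    refine ⟨q, C, c, hc0, hc1, fun P => ?_, fun P hP => ?_⟩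
    · have h1 := h P.size
      rwa [rkA_eq H hsl gr ge, hfin] at h1
    · have h1 := he P.size hP
      rwa [rkA_eq H hsl gr ge, hfin] at h1

/-- **The growth gap**, with an exponentially small error in the finite case. -/
theorem gapE (lim : GG.LimStatement) (ex : GG.ExpStatement)
    (hW : IsWeilCohomology W 𝒱) {X : Fin 1 → Sch k} {e : ℕ}
    (hX : 𝒱.mem (X 0) e) (hE : EvenProjector W (X 0) e)
    {T : ∀ P : Prd 1, Submodule ℂ (W.coh (P.obj X))} (hT : ClosedFamily W X T)
    (hTe : ExtClosed W X T) :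
    (∃ C : ℝ, ∀ P : Prd 1, (rankN W (P.obj X) : ℝ) ≤
      C / √P.size * Module.finrank ℂ (T P)) ∨
    ∃ m : ℕ, 1 ≤ m ∧ (∃ C c : ℝ, 0 ≤ c ∧ c < 1 ∧ ∀ P : Prd 1,
        |(Module.finrank ℂ (T P) : ℝ) - m * rankN W (P.obj X)| ≤
          C * c ^ P.size * rankN W (P.obj X)) ∧
      (∀ P : Prd 1, Even P.size → Module.finrank ℂ (T P) ≤ m * rankN W (P.obj X)) ∧
      (∀ P : Prd 1, ConjectureD W (P.obj X) ∧ NondegOn W (T P)) ∧
      (m = 1 ↔ ∀ P, T P = algC W (P.obj X)) := by
  by_cases h0 : (1 : W.coh (X 0)) = 0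
  · left
    refine ⟨0, fun P => ?_⟩
    rw [rankN_zero h0 P]
    simp
  have hN : ∀ P : Prd 1, (0 : ℝ) < rankN W (P.obj X) := fun P => by
    exact_mod_cast rankN_pos hW hX hE h0 P
  rcases transferC (W := W) (𝒱 := 𝒱) (fun Y T =>
    (∃ r : ℕ, 0 < r ∧ ∀ P : Prd 1, √P.size * (rankN W (P.obj Y) : ℝ) ≤
      160 * r * (Module.finrank ℂ (W.coh (Y 0)) : ℝ) ^ 3 * Module.finrank ℂ (T P)) ∨
    ∃ (q : ℕ) (C c : ℝ), 0 ≤ c ∧ c < 1 ∧
      (∀ P : Prd 1, |(Module.finrank ℂ (T P) : ℝ) - q * rankN W (P.obj Y)| ≤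
        C * c ^ P.size * rankN W (P.obj Y)) ∧
      ∀ P : Prd 1, Even P.size → Module.finrank ℂ (T P) ≤ q * rankN W (P.obj Y))
    (fun H p hp hp0 hd T hT => hostE lim ex H hT hp hp0 hd) hW hX hE h0 hT hTe with
    ⟨r, -, h⟩ | ⟨q, C, c, hc0, hc1, h, hev'⟩
  · left
    refine ⟨160 * r * (Module.finrank ℂ (W.coh (X 0)) : ℝ) ^ 3, fun P => ?_⟩
    have hs : (0 : ℝ) < √P.size := Real.sqrt_pos.2 (by exact_mod_cast P.size_posC)
    rw [div_mul_eq_mul_div, le_div_iff₀ hs]
    linarith [h P]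
  · right
    rcases main hW hX hE h0 (T := T) hT.corr with h1 | ⟨m, ⟨C₁, hC₁⟩, hev, hA⟩
    · exfalso
      obtain ⟨s, hs, hs'⟩ := mem_comap.1 (h1.eventually_gt_atTop (q : ℝ))
      obtain ⟨N, hN'⟩ := mem_atTop_sets.1 hs
      obtain ⟨P, hP⟩ := TateW.exists_prd (2 * N + 2) (by omega)
      have h2 : (q : ℝ) < (Module.finrank ℂ (T P) : ℝ) / rankN W (P.obj X) :=
        hs' (hN' P.size (by omega))
      have h3 := hev' P ⟨N + 1, by omega⟩
      rw [lt_div_iff₀ (hN P)] at h2
      have h4 : (Module.finrank ℂ (T P) : ℝ) ≤ q * rankN W (P.obj X) := by exact_mod_cast h3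
      linarith
    · obtain ⟨hD, hnd, hiff⟩ := hA hT.alg
      -- the two integers are equal
      have hmq : m = q := by
        have h2 : ∀ P : Prd 1, |(m : ℝ) - q| ≤ C₁ / √P.size + C * c ^ P.size := by
          intro P
          have h3 : |((m : ℝ) - q) * rankN W (P.obj X)| ≤
              (C₁ / √P.size + C * c ^ P.size) * rankN W (P.obj X) := by
            have h4 : ((m : ℝ) - q) * rankN W (P.obj X) =
                ((Module.finrank ℂ (T P) : ℝ) - q * rankN W (P.obj X)) -
                  ((Module.finrank ℂ (T P) : ℝ) - m * rankN W (P.obj X)) := by ring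
            rw [h4, add_mul]
            refine (abs_sub _ _).trans ?_
            have h5 := hC₁ P
            have h6 := h P
            linarith
          rw [abs_mul, abs_of_pos (hN P)] at h3
          exact le_of_mul_le_mul_right h3 (hN P)
        have hlim : Tendsto (fun n : ℕ => C₁ / √(n : ℝ) + C * c ^ n) atTop (𝓝 0) := by
          have h3 : Tendsto (fun n : ℕ => C₁ / √(n : ℝ)) atTop (𝓝 0) :=
            (Real.tendsto_sqrt_atTop.comp tendsto_natCast_atTop_atTop).const_div_atTop C₁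
          have h4 : Tendsto (fun n : ℕ => C * c ^ n) atTop (𝓝 (C * 0)) :=
            (tendsto_pow_atTop_nhds_zero_of_lt_one hc0 hc1).const_mul C
          rw [mul_zero] at h4
          simpa using h3.add h4
        by_contra hne
        have h3 : (1 : ℝ) ≤ |(m : ℝ) - q| := by
          have h4 : (1 : ℤ) ≤ |(m : ℤ) - q| := Int.one_le_abs (by omega)
          exact_mod_cast h4
        obtain ⟨N, hN'⟩ := eventually_atTop.1 (hlim.eventually_lt_const one_pos)
        obtain ⟨P, hP⟩ := TateW.exists_prd (N + 1) (by omega)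
        have h5 := hN' P.size (by omega)
        have h6 := h2 P
        linarith
      subst hmq
      refine ⟨m, ?_, ⟨C, c, hc0, hc1, h⟩, hev, fun P => ⟨hD P, hnd hTe P⟩, hiff⟩
      by_contra hm0
      have hm1 : m = 0 := by omega
      obtain ⟨P, hP⟩ := TateW.exists_prd 2 (by omega)
      have h2 := hev P ⟨1, by omega⟩
      rw [hm1, zero_mul] at h2
      have h3 : rankN W (P.obj X) ≤ Module.finrank ℂ (T P) := by
        have hX' : ∀ a, 𝒱.mem (X a) e := fun a => by
          rw [Subsingleton.elim a 0]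
          exact hX
        have hfP : Module.Finite ℂ (W.coh (P.obj X)) :=
          hW.finite (memP (X := X) (n := fun _ => e) hX' P)
        exact (rankN_le (W := W) (P.obj X)).trans (Submodule.finrank_mono (hT.alg P))
      have h4 := rankN_pos hW hX hE h0 P
      omega

end GG44

end Pool.Agent.Lib.MP_361a6f_ag.FL
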