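import Pool.Agent.Lib.MP_361a6f_ag.FL.GG.UL
import Pool.Agent.Lib.MP_361a6f_ag.FL.NoeT

/-!
# The growth gap, row LIM: one compact group for all levels
-/

open Filter Topology Module

set_option autoImplicit false
set_option linter.unusedSectionVars false
set_option linter.unusedVariables false
set_option maxHeartbeats 400000

namespace Pool.Agent.Lib.MP_361a6f_ag.FL

namespace GG

open OL

variable {I Λ : Type} [Fintype I] [DecidableEq I] [DecidableEq Λ]
  {D : Dat I Λ} {At : (L : ℕ) → Ten I L → Prop} {T : (L : ℕ) → Submodule ℂ (Ten I L)}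

/-- The limits at the level `m`. -/
structure Lv (D : Dat I Λ) (At : (L : ℕ) → Ten I L → Prop)
    (T : (L : ℕ) → Submodule ℂ (Ten I L)) (m : ℕ) (F Z : (L : ℕ) → Submodule ℂ (Ten I L)) :
    Prop where
  rk : ∀ L ≤ m, finrank ℂ (F L) = rkA D At L
  fr : ∀ L, finrank ℂ (Z L) = finrank ℂ (T L)
  one : (fun _ => 1) ∈ F 0
  jm : ∀ L, ∀ v ∈ F L, jT D v ∈ F L
  jj : ∀ L ≤ m, ∀ v ∈ F L, jT D (jT D v) = v
  dg : ∀ {ι : Type} [Fintype ι] {len : ι → ℕ} (s : Tup I len) (c : ℕ) (l : List ι)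
    (x : Ten I ((l.map len).sum + c)), IsMatch D _ x → (∀ i, s i ∈ F (len i)) →
    dm D c l x s ∈ F c
  le : ∀ L ≤ m, F L ≤ Z L
  ho : ∀ p q, ∀ u ∈ Z p, ∀ v ∈ Z q, outer u v ∈ Z (p + q)
  hct : ∀ p c, p + c ≤ m → ∀ u ∈ Z p, ∀ v ∈ F (p + c), cont D u v ∈ Z c

theorem SL_outer {p q : ℕ} {U : ℕ → Submodule ℂ (Ten I p)} {V : ℕ → Submodule ℂ (Ten I q)}
    {Y : ℕ → Submodule ℂ (Ten I (p + q))}
    (h : ∀ᶠ j in ((hyperfilter ℕ : Ultrafilter ℕ) : Filter ℕ), ∀ u ∈ U j, ∀ v ∈ V j,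
      outer u v ∈ Y j) {u : Ten I p} (hu : u ∈ SL (hyperfilter ℕ) U) {v : Ten I q}
    (hv : v ∈ SL (hyperfilter ℕ) V) : outer u v ∈ SL (hyperfilter ℕ) Y :=
  SL_map₂ (f := fun (u : Ten I p) (v : Ten I q) => outer u v) Ind.outer_cont h hu hv

theorem SL_cont {p c : ℕ} {U : ℕ → Submodule ℂ (Ten I p)}
    {V : ℕ → Submodule ℂ (Ten I (p + c))} {Y : ℕ → Submodule ℂ (Ten I c)}
    (h : ∀ᶠ j in ((hyperfilter ℕ : Ultrafilter ℕ) : Filter ℕ), ∀ u ∈ U j, ∀ v ∈ V j,
      cont D u v ∈ Y j) {u : Ten I p} (hu : u ∈ SL (hyperfilter ℕ) U) {v : Ten I (p + c)}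
    (hv : v ∈ SL (hyperfilter ℕ) V) : cont D u v ∈ SL (hyperfilter ℕ) Y :=
  SL_map₂ (f := fun (u : Ten I p) (v : Ten I (p + c)) => cont D u v)
    (Ind.cont_cont D (p := p) (c := c)) h hu hv

theorem SL_jT {c : ℕ} {U Y : ℕ → Submodule ℂ (Ten I c)}
    (h : ∀ᶠ j in ((hyperfilter ℕ : Ultrafilter ℕ) : Filter ℕ), ∀ u ∈ U j, jT D u ∈ Y j)
    {u : Ten I c} (hu : u ∈ SL (hyperfilter ℕ) U) : jT D u ∈ SL (hyperfilter ℕ) Y :=
  SL_map (f := fun u : Ten I c => jT D u) ZAbs.jT_cont h hu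

theorem jj_CA (a1 : Alg1) (S : ASys D At) {c : ℕ} {u : Ten I c} (hu : u ∈ CA At c) :
    jT D (jT D u) = u := by
  unfold CA at hu
  induction hu using Submodule.span_induction with
  | mem u hu => exact S.even c u hu
  | zero =>
    have h1 := a1.jT_smul D 0 (0 : Ten I c)
    rw [zero_smul, map_zero, zero_smul] at h1
    rw [h1, h1]
  | add a b _ _ ha hb => rw [a1.jT_add, a1.jT_add, ha, hb]
  | smul r a _ ha => rw [a1.jT_smul, a1.jT_smul, Complex.conj_conj, ha]

theorem inj_gL (a1 : Alg1) {g : Matrix I I ℂ} (hg : IsG D g) (L : ℕ) :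
    Function.Injective (OL.gL a1 L g) := by
  intro u v h
  have h1 : gT g u = gT g v := h
  have h2 := congrArg (gT g⁻¹) h1
  rwa [← a1.gT_mul, ← a1.gT_mul, (a1.G_inv D _ hg).2.2, a1.gT_one, a1.gT_one] at h2

/-- one level -/
theorem exists_lv (a1 : Alg1) (a2 : Alg2) (ab : AlgB) (cpt : CptbStatement) (mn : MinbStatement)
    (l1 : L1bStatement) (l2 : L2bStatement) (S : ASys D At) (hT : ∀ L, CA At L ≤ T L)
    (ho : ∀ p q, ∀ u ∈ T p, ∀ v ∈ T q, outer u v ∈ T (p + q))
    (hct : ∀ p c, ∀ u ∈ T p, ∀ v ∈ CA At (p + c), cont D u v ∈ T c) (m : ℕ) :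
    ∃ F Z : (L : ℕ) → Submodule ℂ (Ten I L), Lv D At T m F Z := by
  obtain ⟨β, _, lb, b, H, g, κ, L⟩ := LevO.lev a1 a2 ab cpt mn l1 l2 S m
  have hU : ((hyperfilter ℕ : Ultrafilter ℕ) : Filter ℕ) ≤ atTop := Nat.hyperfilter_le_atTop
  refine ⟨fun c => fixS H a1 c,
    fun c => SL (hyperfilter ℕ) fun j => (T c).map (OL.gL a1 c (g j)), ?_⟩
  refine
    { rk := fun c hc => finrank_lim L a1 hc
      fr := fun c => finrank_SL _ _ _ (Eventually.of_forall fun j =>
        (Submodule.equivMapOfInjective _ (inj_gL a1 (L.G j) c) (T c)).finrank_eq.symm)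
      one := fun x => Ind.gT_unit _
      jm := ?_
      jj := ?_
      dg := ?_
      le := ?_
      ho := ?_
      hct := ?_ }
  · intro c v hv x
    rw [← a1.jT_gT D _ _ (H.mem x).1, hv x]
  · intro c hc v hv
    obtain ⟨u, hu, hu'⟩ := L.surj c hc v hv
    exact ZAbs.jj_lim a1 L.G (jj_CA a1 S hu) hu'
  · intro ι _ len s c l x hx hs y
    rw [← a2.dm_gS D c l x _ s hx (H.mem y).1.1]
    congr 1
    funext i
    exact hs i y
  · intro c hc v hv
    obtain ⟨u, hu, hu'⟩ := L.surj c hc v hv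
    exact ⟨fun j => gT (g j) u, fun j => ⟨u, hT c hu, rfl⟩, hu'.mono_left hU⟩
  · intro p q u hu v hv
    refine SL_outer (Eventually.of_forall fun j => ?_) hu hv
    rintro _ ⟨u', hu', rfl⟩ _ ⟨v', hv', rfl⟩
    exact ⟨outer u' v', ho p q u' hu' v' hv', a2.outer_gT _ _ _⟩
  · intro p c hpc u hu v hv
    obtain ⟨y, hy, hy'⟩ := L.surj (p + c) hpc v hv
    obtain ⟨z, hz, hz'⟩ := hu
    refine ⟨fun j => cont D (z j) (gT (g j) y), fun j => ?_, ?_⟩
    · obtain ⟨u', hu', h⟩ := hz j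
      refine ⟨cont D u' y, hct p c u' hu' y hy, ?_⟩
      rw [OL.gL_apply] at h ⊢
      rw [a2.cont_gT D (g j) _ _ (L.G j), h]
    · have h1 : Tendsto (fun j => (z j, gT (g j) y)) (hyperfilter ℕ : Ultrafilter ℕ)
          (𝓝 (u, v)) := hz'.prodMk_nhds (hy'.mono_left hU)
      have h2 := (Ind.cont_cont D (p := p) (c := c)).tendsto (u, v)
      have h3 := h2.comp h1
      exact h3

/-- all levels -/
theorem exists_lv_all (a1 : Alg1) (a2 : Alg2) (ab : AlgB) (cpt : CptbStatement)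
    (mn : MinbStatement) (l1 : L1bStatement) (l2 : L2bStatement) (S : ASys D At)
    (hT : ∀ L, CA At L ≤ T L)
    (ho : ∀ p q, ∀ u ∈ T p, ∀ v ∈ T q, outer u v ∈ T (p + q))
    (hct : ∀ p c, ∀ u ∈ T p, ∀ v ∈ CA At (p + c), cont D u v ∈ T c) :
    ∃ F Z : (L : ℕ) → Submodule ℂ (Ten I L), ∀ m, Lv D At T m F Z := by
  choose F Z h using exists_lv a1 a2 ab cpt mn l1 l2 S hT ho hct
  have hU : ((hyperfilter ℕ : Ultrafilter ℕ) : Filter ℕ) ≤ atTop := Nat.hyperfilter_le_atTop
  have hev : ∀ N : ℕ, ∀ᶠ m in ((hyperfilter ℕ : Ultrafilter ℕ) : Filter ℕ), N ≤ m :=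
    fun N => (eventually_ge_atTop N).filter_mono hU
  refine ⟨fun L => SL (hyperfilter ℕ) fun m => F m L,
    fun L => SL (hyperfilter ℕ) fun m => Z m L, fun M => ?_⟩
  refine
    { rk := fun c _ => finrank_SL _ _ _ ((hev c).mono fun m hm => (h m).rk c hm)
      fr := fun c => finrank_SL _ _ _ (Eventually.of_forall fun m => (h m).fr c)
      one := ⟨fun _ => fun _ => 1, fun m => (h m).one, tendsto_const_nhds⟩
      jm := fun c v hv => SL_jT (Eventually.of_forall fun m => (h m).jm c) hv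
      jj := ?_
      dg := ?_
      le := ?_
      ho := fun p q u hu v hv => SL_outer (Eventually.of_forall fun m => (h m).ho p q) hu hv
      hct := fun p c _ u hu v hv =>
        SL_cont ((hev (p + c)).mono fun m hm => (h m).hct p c hm) hu hv }
  · intro c _ v hv
    obtain ⟨z, hz, hz'⟩ := hv
    have h1 : Tendsto (fun m => jT D (jT D (z m))) (hyperfilter ℕ) (𝓝 (jT D (jT D v))) :=
      ((ZAbs.jT_cont.comp ZAbs.jT_cont).tendsto v).comp hz'
    refine tendsto_nhds_unique h1 (hz'.congr' ?_)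
    exact (hev c).mono fun m hm => ((h m).jj c hm _ (hz m)).symm
  · intro ι _ len s c l x hx hs
    choose z hz hz' using hs
    have h1 : Tendsto (fun m => fun i => z i m) (hyperfilter ℕ : Ultrafilter ℕ) (𝓝 s) :=
      tendsto_pi_nhds.2 hz'
    refine ⟨fun m => dm D c l x fun i => z i m, fun m => (h m).dg _ c l x hx fun i => hz i m, ?_⟩
    exact ((a2.dm_cont D c l x).tendsto s).comp h1
  · intro c _ v hv
    obtain ⟨z, hz, hz'⟩ := hv
    exact mem_SL_of ((hev c).mono fun m hm => (h m).le c hm (hz m)) hz'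

/-- tensors fixed by `J` are critical points -/
theorem minimal_of_J (a1 : Alg1) {ι : Type} [Fintype ι] {len : ι → ℕ} {s : Tup I len}
    (hs : ∀ i, jT D (s i) = s i) {β : Type} [Fintype β] {lb : β → ℕ} (b : Tup I lb) :
    Minimalb D b s := by
  intro A hA
  unfold hS
  refine Finset.sum_eq_zero fun i _ => ?_
  have h1 := a1.hT_jT_jT D (s i) (aT A (s i))
  rw [a1.jT_aT D _ _ hA.1, hs i, a1.hT_aT] at h1
  have h2 : hT (aS A s i) (s i) = hT (aT A (s i)) (s i) := rfl
  have h3 : (-A.conjTranspose : Matrix I I ℂ) = (-1 : ℂ) • A.conjTranspose := by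
    rw [neg_smul, one_smul]
  have h4 : hT (s i) (aT (-A.conjTranspose) (s i)) = - hT (s i) (aT A.conjTranspose (s i)) := by
    rw [h3, a1.smul_aT]
    unfold hT
    rw [← Finset.sum_neg_distrib]
    refine Finset.sum_congr rfl fun w _ => ?_
    rw [Pi.smul_apply, smul_eq_mul, map_mul, map_neg, map_one]
    ring
  rw [h2, a1.hT_aT]
  rw [h4] at h1
  have h5 : hT (s i) (aT A.conjTranspose (s i)) = 0 := by
    have h6 : -hT (s i) (aT A.conjTranspose (s i)) = hT (s i) (aT A.conjTranspose (s i)) := h1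
    have h7 : (2 : ℂ) * hT (s i) (aT A.conjTranspose (s i)) = 0 := by
      rw [two_mul]
      nth_rewrite 1 [← h6]
      exact neg_add_cancel _
    rcases mul_eq_zero.1 h7 with h8 | h8
    · exact absurd h8 two_ne_zero
    · exact h8
  exact h5

/-- **Row LIM.** -/
theorem lim : LimStatement := by
  intro a1 a2 ab cpt mn l1 l2 I Λ _ _ _ D At S T hT ho hct
  obtain ⟨F, Z, h⟩ := exists_lv_all a1 a2 ab cpt mn l1 l2 S hT ho hct
  -- finitely many tensors fixed by `J` cut out the stabiliser of all spaces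
  obtain ⟨ι, _, len, t, ht, hcut⟩ := noeT (I := I) fun L => {v : Ten I L | v ∈ F L ∧ jT D v = v}
  let len' : Option ι → ℕ := fun i => i.elim 0 len
  let s : Tup I len' := fun i => match i with
    | none => fun _ => 1
    | some x => t x
  have hsF : ∀ i, s i ∈ F (len' i) := by
    intro i
    match i with
    | none => exact (h 0).one
    | some x => exact (ht x).1
  have hsJ : ∀ i, jT D (s i) = s i := by
    intro i
    match i with
    | none => exact ZAbs.jT_one
    | some x => exact (ht x).2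
  have hcF : ∀ i, cmb (LevO.ub (I := I)) s i ∈
      F ((Sum.elim (fun _ : Unit => 0) len') i) := by
    intro i
    match i with
    | .inl i => exact (h 0).one
    | .inr i => exact hsF i
  have hs0 : hS s s ≠ 0 := by
    have h1 : hS s s = ((∑ i, ∑ w, ‖s i w‖ ^ 2 : ℝ) : ℂ) := by
      unfold hS
      rw [Complex.ofReal_sum]
      exact Finset.sum_congr rfl fun i _ => a1.hT_self _
    rw [h1, Complex.ofReal_ne_zero]
    refine ne_of_gt (Finset.sum_pos' (fun i _ => Finset.sum_nonneg fun w _ => by positivity)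
      ⟨none, Finset.mem_univ _, ?_⟩)
    refine Finset.sum_pos' (fun w _ => by positivity) ⟨fun i => i.elim0, Finset.mem_univ _, ?_⟩
    change 0 < ‖(1 : ℂ)‖ ^ 2
    rw [norm_one]
    norm_num
  obtain ⟨H₀⟩ := cpt D (LevO.ub (I := I))
  obtain ⟨H⟩ := cpt D (cmb (LevO.ub (I := I)) s)
  have hfix : ∀ c, fixS H a1 c = F c := by
    intro c
    apply le_antisymm
    · intro v hv
      have h1 : v ∈ MT D (cmb (LevO.ub (I := I)) s) c := by
        refine l2 LevO.ub_base H₀ s (minimal_of_J a1 hsJ _) hs0 c v fun x hx => ?_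
        obtain ⟨y, hy⟩ := H.surj (H₀.mat x) ⟨(H₀.mem x).1, REB.gS_cmb_of ab (H₀.mem x).2 hx⟩
        rw [← hy]
        exact hv y
      unfold MT at h1
      refine (Submodule.span_le.2 ?_) h1
      rintro _ ⟨l, x, hx, rfl⟩
      exact (h 0).dg _ c l x hx hcF
    · intro v hv x
      have hxt : ∀ i, gT (H.mat x) (t i) = t i := fun i =>
        congrFun (H.mem x).2 (Sum.inr (some i))
      have key : ∀ w ∈ F c, jT D w = w → gT (H.mat x) w = w := fun w hw hw' =>
        hcut _ hxt c w ⟨hw, hw'⟩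
      have hjj := (h c).jj c le_rfl v hv
      have hjm := (h c).jm c v hv
      have h1 := key (v + jT D v) (add_mem hv hjm) (by rw [a1.jT_add, hjj, add_comm])
      have h2 := key (Complex.I • (v - jT D v)) (Submodule.smul_mem _ _ (sub_mem hv hjm)) (by
        have h3 : v - jT D v = v + (-1 : ℂ) • jT D v := by
          rw [neg_smul, one_smul, sub_eq_add_neg]
        rw [h3, a1.jT_smul, a1.jT_add, a1.jT_smul, hjj, Complex.conj_I, map_neg, map_one]
        module)
      have h3 : v = (1 / 2 : ℂ) • (v + jT D v) +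
          (-Complex.I / 2) • (Complex.I • (v - jT D v)) := by
        rw [smul_smul]
        have h4 : -Complex.I / 2 * Complex.I = 1 / 2 := by
          have := Complex.I_mul_I
          linear_combination (-1 / 2 : ℂ) * this
        rw [h4]
        module
      have h4 : gT (H.mat x) ((1 / 2 : ℂ) • (v + jT D v) +
          (-Complex.I / 2) • (Complex.I • (v - jT D v))) = (1 / 2 : ℂ) • (v + jT D v) +
          (-Complex.I / 2) • (Complex.I • (v - jT D v)) := by
        rw [a1.gT_add, a1.gT_smul _ (1 / 2 : ℂ), a1.gT_smul _ (-Complex.I / 2), h1, h2]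
      rwa [← h3] at h4
  refine ⟨Unit ⊕ Option ι, inferInstance, Sum.elim (fun _ : Unit => 0) len',
    cmb (LevO.ub (I := I)) s, H, Z, ?_⟩
  exact
    { fr := fun L => (h 0).fr L
      rk := fun L => by rw [hfix]; exact (h L).rk L le_rfl
      le := fun L => by rw [hfix]; exact (h L).le L le_rfl
      ho := (h 0).ho
      hct := fun p c u hu v hv => (h (p + c)).hct p c le_rfl u hu v (by rwa [hfix] at hv) }

end GG

end Pool.Agent.Lib.MP_361a6f_ag.FL
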