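import Pool.Agent.Lib.MP_361a6f_ag.FL.GG.Defs

/-!
# Limits of subspaces along an ultrafilter
-/

open Filter Topology Module

set_option autoImplicit false
set_option linter.unusedSectionVars false
set_option linter.unusedVariables false

namespace Pool.Agent.Lib.MP_361a6f_ag.FL

namespace GG

variable {ι : Type*} {E E' E'' : Type*} [NormedAddCommGroup E] [NormedSpace ℂ E]
  [FiniteDimensional ℂ E] [NormedAddCommGroup E'] [NormedSpace ℂ E'] [FiniteDimensional ℂ E']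
  [NormedAddCommGroup E''] [NormedSpace ℂ E''] [FiniteDimensional ℂ E'']

/-- the limits along `𝒰` of the families of members of the spaces `T j` -/
def SL (𝒰 : Ultrafilter ι) (T : ι → Submodule ℂ E) : Submodule ℂ E where
  carrier := {y | ∃ z : ι → E, (∀ j, z j ∈ T j) ∧ Tendsto z 𝒰 (𝓝 y)}
  add_mem' := by
    rintro a b ⟨z, hz, hz'⟩ ⟨w, hw, hw'⟩
    exact ⟨fun j => z j + w j, fun j => add_mem (hz j) (hw j), hz'.add hw'⟩
  zero_mem' := ⟨fun _ => 0, fun j => zero_mem _, tendsto_const_nhds⟩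
  smul_mem' := by
    rintro r a ⟨z, hz, hz'⟩
    exact ⟨fun j => r • z j, fun j => Submodule.smul_mem _ r (hz j), hz'.const_smul r⟩

theorem mem_SL {𝒰 : Ultrafilter ι} {T : ι → Submodule ℂ E} {y : E} :
    y ∈ SL 𝒰 T ↔ ∃ z : ι → E, (∀ j, z j ∈ T j) ∧ Tendsto z 𝒰 (𝓝 y) := Iff.rfl

/-- it is enough that the members are in the spaces eventually -/
theorem mem_SL_of {𝒰 : Ultrafilter ι} {T : ι → Submodule ℂ E} {y : E} {z : ι → E}
    (h : ∀ᶠ j in (𝒰 : Filter ι), z j ∈ T j) (hz : Tendsto z 𝒰 (𝓝 y)) : y ∈ SL 𝒰 T := by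
  classical
  refine ⟨fun j => if z j ∈ T j then z j else 0, fun j => ?_, ?_⟩
  · by_cases hj : z j ∈ T j
    · simp only [if_pos hj]; exact hj
    · simp only [if_neg hj]; exact zero_mem _
  · refine hz.congr' ?_
    filter_upwards [h] with j hj
    rw [if_pos hj]

theorem finrank_SL_le (𝒰 : Ultrafilter ι) (T : ι → Submodule ℂ E) (N : ℕ)
    (hT : ∀ᶠ j in (𝒰 : Filter ι), finrank ℂ (T j) ≤ N) : finrank ℂ (SL 𝒰 T) ≤ N := by
  let bs := finBasis ℂ (SL 𝒰 T)
  have h1 : ∀ l, ∃ z : ι → E, (∀ j, z j ∈ T j) ∧ Tendsto z 𝒰 (𝓝 (bs l : E)) :=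
    fun l => (bs l).2
  choose z hz hz' using h1
  have hli : LinearIndependent ℂ fun l => (bs l : E) :=
    bs.linearIndependent.map' (SL 𝒰 T).subtype (Submodule.ker_subtype _)
  have h2 : Tendsto (fun j => fun l => z l j) 𝒰 (𝓝 fun l => (bs l : E)) :=
    tendsto_pi_nhds.2 hz'
  have h3 := (isOpen_setOfPred_linearIndependent (𝕜 := ℂ) (E := E)).mem_nhds hli
  obtain ⟨j, hj, hjN⟩ := ((h2.eventually h3).and hT).exists
  have h4 : LinearIndependent ℂ fun l => (⟨z l j, hz l j⟩ : T j) :=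
    LinearIndependent.of_comp (T j).subtype hj
  have h5 := h4.fintype_card_le_finrank
  rw [Fintype.card_fin] at h5
  exact h5.trans hjN

theorem le_finrank_SL (𝒰 : Ultrafilter ι) (T : ι → Submodule ℂ E) (N : ℕ)
    (hT : ∀ᶠ j in (𝒰 : Filter ι), N ≤ finrank ℂ (T j)) : N ≤ finrank ℂ (SL 𝒰 T) := by
  classical
  let F := EuclideanSpace ℂ (Fin (finrank ℂ E))
  let te : E ≃ₗ[ℂ] F := LinearEquiv.ofFinrankEq _ _ (by rw [finrank_euclideanSpace_fin])
  let ec : E ≃L[ℂ] F := te.toContinuousLinearEquiv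
  have hx : ∀ j, ∃ x : Fin N → F, (∀ i, ‖x i‖ ≤ 1) ∧ (∀ i, te.symm (x i) ∈ T j) ∧
      (N ≤ finrank ℂ (T j) → Orthonormal ℂ x) := by
    intro j
    by_cases hj : N ≤ finrank ℂ (T j)
    · have hfr : finrank ℂ ((T j).map te.toLinearMap) = finrank ℂ (T j) :=
        LinearEquiv.finrank_map_eq te (T j)
      let bs := stdOrthonormalBasis ℂ ((T j).map te.toLinearMap)
      let x : Fin N → F := fun i => (bs (Fin.castLE (hj.trans hfr.symm.le) i) : F)
      have hon : Orthonormal ℂ x :=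
        (bs.orthonormal.comp_linearIsometry ((T j).map te.toLinearMap).subtypeₗᵢ).comp _
          (Fin.castLE_injective _)
      refine ⟨x, fun i => (hon.1 i).le, fun i => ?_, fun _ => hon⟩
      obtain ⟨y, hy, h⟩ := (bs (Fin.castLE (hj.trans hfr.symm.le) i)).2
      have h1 : te.symm (x i) = y := by
        change te.symm (bs (Fin.castLE (hj.trans hfr.symm.le) i) : F) = y
        rw [← h]
        exact LinearEquiv.symm_apply_apply _ _
      rw [h1]
      exact hy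
    · refine ⟨fun _ => 0, fun i => by simp, fun i => by rw [map_zero]; exact zero_mem _,
        fun h => absurd h hj⟩
  choose x hx1 hx2 hx3 using hx
  obtain ⟨c', -, hlim⟩ := (isCompact_univ_pi fun _ : Fin N =>
    isCompact_closedBall (0 : F) 1).ultrafilter_le_nhds (𝒰.map x) (by
      rw [Filter.le_principal_iff]
      refine Filter.mem_map.2 (Filter.univ_mem' fun j i _ => ?_)
      rw [mem_closedBall_zero_iff]
      exact hx1 j i)
  have hlim' : Tendsto x 𝒰 (𝓝 c') := hlim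
  have hon' : Orthonormal ℂ c' := by
    rw [orthonormal_iff_ite]
    intro i j
    have h1 : Tendsto (fun l => inner ℂ (x l i) (x l j)) 𝒰
        (𝓝 (inner ℂ (c' i) (c' j))) :=
      (tendsto_pi_nhds.1 hlim' i).inner (tendsto_pi_nhds.1 hlim' j)
    refine tendsto_nhds_unique h1 ?_
    refine tendsto_const_nhds.congr' ?_
    filter_upwards [hT] with l hl
    exact (orthonormal_iff_ite.1 (hx3 l hl) i j).symm
  have hmem : ∀ i, te.symm (c' i) ∈ SL 𝒰 T := by
    intro i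
    refine ⟨fun l => te.symm (x l i), fun l => hx2 l i, ?_⟩
    exact (ec.symm.continuous.tendsto (c' i)).comp (tendsto_pi_nhds.1 hlim' i)
  have hli : LinearIndependent ℂ fun i => te.symm (c' i) :=
    hon'.linearIndependent.map' te.symm.toLinearMap te.symm.ker
  have hli' : LinearIndependent ℂ fun i => (⟨te.symm (c' i), hmem i⟩ : SL 𝒰 T) :=
    LinearIndependent.of_comp (SL 𝒰 T).subtype hli
  have h5 := hli'.fintype_card_le_finrank
  rwa [Fintype.card_fin] at h5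

theorem finrank_SL (𝒰 : Ultrafilter ι) (T : ι → Submodule ℂ E) (N : ℕ)
    (hT : ∀ᶠ j in (𝒰 : Filter ι), finrank ℂ (T j) = N) : finrank ℂ (SL 𝒰 T) = N :=
  le_antisymm (finrank_SL_le 𝒰 T N (hT.mono fun _ h => h.le))
    (le_finrank_SL 𝒰 T N (hT.mono fun _ h => h.ge))

/-- a continuous map -/
theorem SL_map {𝒰 : Ultrafilter ι} {T : ι → Submodule ℂ E} {T' : ι → Submodule ℂ E'}
    {f : E → E'} (hf : Continuous f)
    (h : ∀ᶠ j in (𝒰 : Filter ι), ∀ u ∈ T j, f u ∈ T' j) {u : E} (hu : u ∈ SL 𝒰 T) :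
    f u ∈ SL 𝒰 T' := by
  obtain ⟨z, hz, hz'⟩ := hu
  exact mem_SL_of (z := fun j => f (z j)) (h.mono fun j hj => hj _ (hz j))
    ((hf.tendsto u).comp hz')

/-- a continuous map of two variables -/
theorem SL_map₂ {𝒰 : Ultrafilter ι} {T : ι → Submodule ℂ E} {T' : ι → Submodule ℂ E'}
    {T'' : ι → Submodule ℂ E''} {f : E → E' → E''} (hf : Continuous fun x : E × E' => f x.1 x.2)
    (h : ∀ᶠ j in (𝒰 : Filter ι), ∀ u ∈ T j, ∀ v ∈ T' j, f u v ∈ T'' j) {u : E}
    (hu : u ∈ SL 𝒰 T) {v : E'} (hv : v ∈ SL 𝒰 T') : f u v ∈ SL 𝒰 T'' := by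
  obtain ⟨z, hz, hz'⟩ := hu
  obtain ⟨w, hw, hw'⟩ := hv
  refine mem_SL_of (z := fun j => f (z j) (w j)) (h.mono fun j hj => hj _ (hz j) _ (hw j)) ?_
  exact (hf.tendsto (u, v)).comp (hz'.prodMk_nhds hw')

end GG

end Pool.Agent.Lib.MP_361a6f_ag.FL
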